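import Mathlib

/-!
Kloosterman sums modulo a prime and the elementary fourth moment bound.
-/

namespace Pool.Agent.MP_2f88e5_nt

open Finset Real

/-- Kloosterman sums modulo a prime. -/
noncomputable def kl (p : ℕ) [Fact p.Prime] (a b : ZMod p) : ℂ :=
  ∑ x : (ZMod p)ˣ, ZMod.stdAddChar (a * (x : ZMod p) + b * ((x⁻¹ : (ZMod p)ˣ) : ZMod p))

theorem kl_shift (p : ℕ) [Fact p.Prime] (a b : ZMod p) (t : (ZMod p)ˣ) :
    kl p (a * (t : ZMod p)) (b * ((t⁻¹ : (ZMod p)ˣ) : ZMod p)) = kl p a b := by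
  unfold kl
  refine Fintype.sum_equiv (Equiv.mulLeft t) _ _ fun x => ?_
  congr 1
  simp only [Equiv.coe_mulLeft, mul_inv, Units.val_mul]
  ring

theorem sum_char (p : ℕ) [Fact p.Prime] (u : ZMod p) :
    ∑ a : ZMod p, (ZMod.stdAddChar (a * u) : ℂ) = if u = 0 then (p : ℂ) else 0 := by
  have h := AddChar.sum_mulShift (R := ZMod p) (R' := ℂ) (ψ := ZMod.stdAddChar) u
    (ZMod.isPrimitive_stdAddChar p)
  rw [h, ZMod.card]
  split_ifs <;> simp

theorem conj_char (p : ℕ) [Fact p.Prime] (u : ZMod p) :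
    (starRingEnd ℂ) (ZMod.stdAddChar u : ℂ) = ZMod.stdAddChar (-u) := by
  rw [AddChar.map_neg_eq_conj]

theorem second_moment (p : ℕ) [Fact p.Prime] {ι : Type} [Fintype ι] [DecidableEq ι]
    (f g : ι → ZMod p) :
    ∑ a : ZMod p, ∑ b : ZMod p, ‖∑ i, (ZMod.stdAddChar (a * f i + b * g i) : ℂ)‖ ^ 2 =
      (p : ℝ) ^ 2 *
        ((univ : Finset (ι × ι)).filter fun ij => f ij.1 = f ij.2 ∧ g ij.1 = g ij.2).card := by
  have h1 : ∀ a b : ZMod p,
      ((‖∑ i, (ZMod.stdAddChar (a * f i + b * g i) : ℂ)‖ ^ 2 : ℝ) : ℂ) =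
        ∑ ij : ι × ι, (ZMod.stdAddChar (a * (f ij.1 - f ij.2)) : ℂ) *
          ZMod.stdAddChar (b * (g ij.1 - g ij.2)) := by
    intro a b
    have : ((‖∑ i, (ZMod.stdAddChar (a * f i + b * g i) : ℂ)‖ ^ 2 : ℝ) : ℂ) =
        (∑ i, (ZMod.stdAddChar (a * f i + b * g i) : ℂ)) *
          (starRingEnd ℂ) (∑ i, (ZMod.stdAddChar (a * f i + b * g i) : ℂ)) := by
      rw [Complex.mul_conj, Complex.normSq_eq_norm_sq]
    rw [this, map_sum, Finset.sum_mul_sum, Fintype.sum_prod_type]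
    refine Finset.sum_congr rfl fun i _ => Finset.sum_congr rfl fun j _ => ?_
    rw [conj_char, ← AddChar.map_add_eq_mul, ← AddChar.map_add_eq_mul]
    congr 1
    ring
  have h2 : ((∑ a : ZMod p, ∑ b : ZMod p,
      ‖∑ i, (ZMod.stdAddChar (a * f i + b * g i) : ℂ)‖ ^ 2 : ℝ) : ℂ) =
      (((p : ℝ) ^ 2 *
        ((univ : Finset (ι × ι)).filter fun ij => f ij.1 = f ij.2 ∧ g ij.1 = g ij.2).card : ℝ)
          : ℂ) := by
    push_cast
    have : ∀ a b : ZMod p,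
        (‖∑ i, (ZMod.stdAddChar (a * f i + b * g i) : ℂ)‖ : ℂ) ^ 2 =
        ∑ ij : ι × ι, (ZMod.stdAddChar (a * (f ij.1 - f ij.2)) : ℂ) *
          ZMod.stdAddChar (b * (g ij.1 - g ij.2)) := by
      intro a b
      rw [← h1 a b]; push_cast; rfl
    simp_rw [this]
    have h3 : ∑ a : ZMod p, ∑ b : ZMod p, ∑ ij : ι × ι,
        (ZMod.stdAddChar (a * (f ij.1 - f ij.2)) : ℂ) *
          ZMod.stdAddChar (b * (g ij.1 - g ij.2)) =
        ∑ ij : ι × ι, (∑ a : ZMod p, (ZMod.stdAddChar (a * (f ij.1 - f ij.2)) : ℂ)) *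
          ∑ b : ZMod p, (ZMod.stdAddChar (b * (g ij.1 - g ij.2)) : ℂ) := by
      simp_rw [Finset.sum_mul_sum]
      rw [Finset.sum_comm' (t' := univ) (s' := fun _ => univ) (by simp)]
      rw [Finset.sum_comm]
      conv_lhs =>
        enter [2, a]
        rw [Finset.sum_comm]
      rw [Finset.sum_comm]
    rw [h3]
    simp_rw [sum_char]
    rw [Finset.card_filter]
    push_cast
    rw [Finset.mul_sum]
    refine Finset.sum_congr rfl fun ij _ => ?_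
    by_cases ha : f ij.1 = f ij.2 <;> by_cases hb : g ij.1 = g ij.2 <;>
      simp [sub_eq_zero, ha, hb, sq]
  exact_mod_cast h2

theorem card_solutions (p : ℕ) [Fact p.Prime] :
    ((univ : Finset (((ZMod p)ˣ × (ZMod p)ˣ) × ((ZMod p)ˣ × (ZMod p)ˣ))).filter fun ij =>
      (ij.1.1 : ZMod p) + (ij.1.2 : ZMod p) = (ij.2.1 : ZMod p) + (ij.2.2 : ZMod p) ∧
      ((ij.1.1⁻¹ : (ZMod p)ˣ) : ZMod p) + ((ij.1.2⁻¹ : (ZMod p)ˣ) : ZMod p) =
        ((ij.2.1⁻¹ : (ZMod p)ˣ) : ZMod p) + ((ij.2.2⁻¹ : (ZMod p)ˣ) : ZMod p)).card ≤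
      3 * (p - 1) ^ 2 := by
  classical
  have hcard : (univ : Finset ((ZMod p)ˣ × (ZMod p)ˣ)).card = (p - 1) ^ 2 := by
    rw [Finset.card_univ, Fintype.card_prod, ZMod.card_units_eq_totient,
      Nat.totient_prime (Fact.out : p.Prime), sq]
  have hsub : ((univ : Finset (((ZMod p)ˣ × (ZMod p)ˣ) × ((ZMod p)ˣ × (ZMod p)ˣ))).filter fun ij =>
      (ij.1.1 : ZMod p) + (ij.1.2 : ZMod p) = (ij.2.1 : ZMod p) + (ij.2.2 : ZMod p) ∧
      ((ij.1.1⁻¹ : (ZMod p)ˣ) : ZMod p) + ((ij.1.2⁻¹ : (ZMod p)ˣ) : ZMod p) =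
        ((ij.2.1⁻¹ : (ZMod p)ˣ) : ZMod p) + ((ij.2.2⁻¹ : (ZMod p)ˣ) : ZMod p)) ⊆
      ((univ : Finset ((ZMod p)ˣ × (ZMod p)ˣ)).image fun i => (i, i)) ∪
      (((univ : Finset ((ZMod p)ˣ × (ZMod p)ˣ)).image fun i => (i, (i.2, i.1))) ∪
      ((univ : Finset ((ZMod p)ˣ × (ZMod p)ˣ)).image fun i => ((i.1, -i.1), (i.2, -i.2)))) := by
    intro ij hij
    obtain ⟨⟨x1, x2⟩, ⟨y1, y2⟩⟩ := ij
    simp only [mem_filter, mem_univ, true_and] at hij
    obtain ⟨h1, h2⟩ := hij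
    have hx1 : (x1 : ZMod p) ≠ 0 := x1.ne_zero
    have hx2 : (x2 : ZMod p) ≠ 0 := x2.ne_zero
    have hy1 : (y1 : ZMod p) ≠ 0 := y1.ne_zero
    have hy2 : (y2 : ZMod p) ≠ 0 := y2.ne_zero
    simp only [Units.val_inv_eq_inv_val] at h2
    simp only [mem_union, mem_image, mem_univ, true_and, Prod.mk.injEq, Prod.exists]
    field_simp at h2
    -- h2 : (x2 + x1) * (y1 * y2) = (y2 + y1) * (x1 * x2)
    by_cases hs : (x1 : ZMod p) + x2 = 0
    · right; right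
      refine ⟨x1, y1, ⟨rfl, ?_⟩, rfl, ?_⟩
      · ext; rw [Units.val_neg]; linear_combination -hs
      · ext; rw [Units.val_neg]; linear_combination h1 - hs
    · have h3 : (x1 : ZMod p) * x2 = y1 * y2 := by
        have : ((x1 : ZMod p) + x2) * (x1 * x2 - y1 * y2) = 0 := by
          linear_combination (x1 * x2 : ZMod p) * h1 - h2
        rcases mul_eq_zero.mp this with h | h
        · exact absurd h hs
        · linear_combination h
      have h4 : ((y1 : ZMod p) - x1) * (y1 - x2) = 0 := by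
        linear_combination h3 - (y1 : ZMod p) * h1
      rcases mul_eq_zero.mp h4 with h | h
      · left
        have e1 : x1 = y1 := by ext; linear_combination -h
        have e2 : x2 = y2 := by ext; linear_combination h1 + h
        exact ⟨x1, x2, ⟨rfl, rfl⟩, e1, e2⟩
      · right; left
        have e1 : x2 = y1 := by ext; linear_combination -h
        have e2 : x1 = y2 := by ext; linear_combination h1 + h
        exact ⟨x1, x2, ⟨rfl, rfl⟩, e1, e2⟩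
  refine (card_le_card hsub).trans ?_
  refine (card_union_le _ _).trans ?_
  have ha := (card_union_le ((univ : Finset ((ZMod p)ˣ × (ZMod p)ˣ)).image fun i => (i, (i.2, i.1)))
    ((univ : Finset ((ZMod p)ˣ × (ZMod p)ˣ)).image fun i => ((i.1, -i.1), (i.2, -i.2))))
  have hb : (((univ : Finset ((ZMod p)ˣ × (ZMod p)ˣ)).image fun i => (i, i))).card ≤ (p - 1) ^ 2 :=
    hcard ▸ card_image_le
  have hc : (((univ : Finset ((ZMod p)ˣ × (ZMod p)ˣ)).image fun i => (i, (i.2, i.1)))).card ≤ (p - 1) ^ 2 :=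
    hcard ▸ card_image_le
  have hd : (((univ : Finset ((ZMod p)ˣ × (ZMod p)ˣ)).image fun i => ((i.1, -i.1), (i.2, -i.2)))).card ≤
      (p - 1) ^ 2 := hcard ▸ card_image_le
  omega

theorem kl_bound (p : ℕ) [Fact p.Prime] (a b : ZMod p) (ha : a ≠ 0) (hb : b ≠ 0) :
    ‖kl p a b‖ ^ 4 ≤ 3 * (p : ℝ) ^ 3 := by
  classical
  have hp : p.Prime := Fact.out
  -- the fourth moment
  have h1 : ∑ a' : ZMod p, ∑ b' : ZMod p, ‖kl p a' b'‖ ^ 4 ≤
      (p : ℝ) ^ 2 * (3 * ((p : ℝ) - 1) ^ 2) := by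
    have h := second_moment p (ι := (ZMod p)ˣ × (ZMod p)ˣ)
      (fun i => (i.1 : ZMod p) + (i.2 : ZMod p))
      (fun i => ((i.1⁻¹ : (ZMod p)ˣ) : ZMod p) + ((i.2⁻¹ : (ZMod p)ˣ) : ZMod p))
    have h2 : ∀ a' b' : ZMod p, ‖kl p a' b'‖ ^ 4 =
        ‖∑ i : (ZMod p)ˣ × (ZMod p)ˣ, (ZMod.stdAddChar (a' * ((i.1 : ZMod p) + (i.2 : ZMod p)) +
          b' * (((i.1⁻¹ : (ZMod p)ˣ) : ZMod p) + ((i.2⁻¹ : (ZMod p)ˣ) : ZMod p))) : ℂ)‖ ^ 2 := by
      intro a' b'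
      have : ∑ i : (ZMod p)ˣ × (ZMod p)ˣ,
          (ZMod.stdAddChar (a' * ((i.1 : ZMod p) + (i.2 : ZMod p)) +
          b' * (((i.1⁻¹ : (ZMod p)ˣ) : ZMod p) + ((i.2⁻¹ : (ZMod p)ˣ) : ZMod p))) : ℂ) =
          kl p a' b' * kl p a' b' := by
        unfold kl
        rw [Finset.sum_mul_sum, Fintype.sum_prod_type]
        refine Finset.sum_congr rfl fun i _ => Finset.sum_congr rfl fun j _ => ?_
        rw [← AddChar.map_add_eq_mul]
        congr 1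
        ring
      rw [this, norm_mul]; ring
    simp_rw [h2]
    rw [h]
    have h3 := card_solutions p
    have h4 : (((univ : Finset (((ZMod p)ˣ × (ZMod p)ˣ) × ((ZMod p)ˣ × (ZMod p)ˣ))).filter fun ij =>
      (ij.1.1 : ZMod p) + (ij.1.2 : ZMod p) = (ij.2.1 : ZMod p) + (ij.2.2 : ZMod p) ∧
      ((ij.1.1⁻¹ : (ZMod p)ˣ) : ZMod p) + ((ij.1.2⁻¹ : (ZMod p)ˣ) : ZMod p) =
        ((ij.2.1⁻¹ : (ZMod p)ˣ) : ZMod p) + ((ij.2.2⁻¹ : (ZMod p)ˣ) : ZMod p)).card : ℝ) ≤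
      3 * ((p : ℝ) - 1) ^ 2 := by
      have : ((3 * (p - 1) ^ 2 : ℕ) : ℝ) = 3 * ((p : ℝ) - 1) ^ 2 := by
        push_cast [hp.one_le]; ring
      rw [← this]
      exact_mod_cast h3
    exact mul_le_mul_of_nonneg_left h4 (by positivity)
  -- the orbit of (a, b)
  have h5 : ((p : ℝ) - 1) * ‖kl p a b‖ ^ 4 ≤ ∑ a' : ZMod p, ∑ b' : ZMod p, ‖kl p a' b'‖ ^ 4 := by
    rw [← Fintype.sum_prod_type' (f := fun a' b' => ‖kl p a' b'‖ ^ 4)]
    have hinj : Set.InjOn (fun t : (ZMod p)ˣ =>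
        ((a * (t : ZMod p), b * ((t⁻¹ : (ZMod p)ˣ) : ZMod p)) : ZMod p × ZMod p))
        (univ : Finset (ZMod p)ˣ) := by
      intro s _ t _ hst
      simp only [Prod.mk.injEq] at hst
      ext
      exact mul_left_cancel₀ ha hst.1
    calc ((p : ℝ) - 1) * ‖kl p a b‖ ^ 4
        = ∑ t : (ZMod p)ˣ, ‖kl p (a * (t : ZMod p)) (b * ((t⁻¹ : (ZMod p)ˣ) : ZMod p))‖ ^ 4 := by
          simp_rw [kl_shift]
          rw [Finset.sum_const, Finset.card_univ, ZMod.card_units_eq_totient,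
            Nat.totient_prime hp, nsmul_eq_mul]
          push_cast [hp.one_le]; ring
      _ = ∑ q ∈ (univ : Finset (ZMod p)ˣ).image (fun t : (ZMod p)ˣ =>
            ((a * (t : ZMod p), b * ((t⁻¹ : (ZMod p)ˣ) : ZMod p)) : ZMod p × ZMod p)),
            ‖kl p q.1 q.2‖ ^ 4 := by
          rw [Finset.sum_image hinj]
      _ ≤ _ := Finset.sum_le_sum_of_subset_of_nonneg (subset_univ _)
          fun _ _ _ => by positivity
  have hp1 : (1 : ℝ) < p := by exact_mod_cast hp.one_lt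
  have h6 : ((p : ℝ) - 1) * ‖kl p a b‖ ^ 4 ≤ ((p : ℝ) - 1) * (3 * (p : ℝ) ^ 2 * ((p : ℝ) - 1)) := by
    refine (h5.trans h1).trans (le_of_eq ?_)
    ring
  have h7 := le_of_mul_le_mul_left h6 (by linarith)
  nlinarith [sq_nonneg (p : ℝ)]

end Pool.Agent.MP_2f88e5_nt
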