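import Mathlib
import Pool.Agent.MP_2f88e5_nt.Kl

namespace Pool.Agent.MP_2f88e5_nt

open Finset Real

/-- Linear exponential sums along a progression. -/
noncomputable def lin (p : ℕ) [Fact p.Prime] (α β : ZMod p) (M : ℕ) (h : ZMod p) : ℂ :=
  ∑ i ∈ range M, ZMod.stdAddChar (h * (α + β * (i : ZMod p)))

variable (p : ℕ) [Fact p.Prime]

lemma lin_bound (α β h : ZMod p) (M : ℕ) (h0 : h * β ≠ 0) :
    ‖lin p α β M h‖ ≤ 2 / ‖(ZMod.stdAddChar (h * β) : ℂ) - 1‖ := by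
  have hne : (ZMod.stdAddChar (h * β) : ℂ) ≠ 1 := by
    intro h1
    have := ZMod.injective_stdAddChar (N := p) (a₁ := h * β) (a₂ := 0) (by simpa using h1)
    exact h0 this
  have hpos : 0 < ‖(ZMod.stdAddChar (h * β) : ℂ) - 1‖ := by
    rw [norm_pos_iff]
    exact sub_ne_zero.mpr hne
  rw [le_div_iff₀ hpos, ← norm_mul]
  have h1 : lin p α β M h = ZMod.stdAddChar (h * α) *
      ∑ i ∈ range M, (ZMod.stdAddChar (h * β) : ℂ) ^ i := by
    rw [lin, mul_sum]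
    refine sum_congr rfl fun i _ => ?_
    rw [← AddChar.map_nsmul_eq_pow, ← AddChar.map_add_eq_mul]
    congr 1
    simp only [nsmul_eq_mul]
    ring
  rw [h1, mul_assoc, geom_sum_mul, norm_mul]
  have h2 : ‖(ZMod.stdAddChar (h * α) : ℂ)‖ = 1 := AddChar.norm_apply _ _
  rw [h2, one_mul]
  calc ‖(ZMod.stdAddChar (h * β) : ℂ) ^ M - 1‖ ≤ ‖(ZMod.stdAddChar (h * β) : ℂ) ^ M‖ + ‖(1 : ℂ)‖ :=
        norm_sub_le _ _
    _ = 2 := by
        rw [norm_pow, AddChar.norm_apply]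
        norm_num

lemma std_sub_one (r : ZMod p) (hr : r ≠ 0) :
    2 / ‖(ZMod.stdAddChar r : ℂ) - 1‖ ≤ (p : ℝ) / 2 * (1 / (r.val : ℝ) + 1 / (p - r.val : ℝ)) := by
  have hp0 : (0 : ℝ) < p := by exact_mod_cast (Fact.out : p.Prime).pos
  have hv0 : (0 : ℝ) < r.val := by
    exact_mod_cast Nat.pos_of_ne_zero (by rwa [Ne, ZMod.val_eq_zero])
  have hvp : (r.val : ℝ) < p := by exact_mod_cast ZMod.val_lt r
  have h1 : (ZMod.stdAddChar r : ℂ) = Complex.exp (Complex.I * ((2 * π * r.val / p : ℝ) : ℂ)) := by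
    rw [ZMod.stdAddChar_apply, ZMod.toCircle_apply]
    congr 1
    push_cast
    ring
  rw [h1, Complex.norm_exp_I_mul_ofReal_sub_one]
  have h2 : 2 * π * (r.val : ℝ) / p / 2 = π * r.val / p := by ring
  rw [h2]
  have hsin : 0 < sin (π * r.val / p) := by
    apply sin_pos_of_pos_of_lt_pi
    · positivity
    · rw [div_lt_iff₀ hp0]
      exact mul_lt_mul_of_pos_left hvp pi_pos
  rw [Real.norm_of_nonneg (by positivity)]
  have h3 : 2 / (2 * sin (π * r.val / p)) = 1 / sin (π * r.val / p) := by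
    field_simp
  rw [h3]
  rcases le_total (2 * (r.val : ℝ)) p with hle | hle
  · have h4 : 2 / π * (π * r.val / p) ≤ sin (π * r.val / p) := by
      apply mul_le_sin
      · positivity
      · rw [div_le_iff₀ hp0]
        nlinarith [pi_pos]
    have h5 : 2 / π * (π * r.val / p) = 2 * r.val / p := by
      field_simp
    rw [h5] at h4
    have h6 : 1 / sin (π * r.val / p) ≤ 1 / (2 * r.val / p) :=
      one_div_le_one_div_of_le (by positivity) h4
    have h7 : 1 / (2 * (r.val : ℝ) / p) = (p : ℝ) / 2 * (1 / r.val) := by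
      field_simp
    rw [h7] at h6
    have h8 : 0 ≤ (p : ℝ) / 2 * (1 / (p - r.val : ℝ)) := by
      have : 0 < (p : ℝ) - r.val := by linarith
      positivity
    rw [mul_add]
    linarith
  · have hpr : 0 < (p : ℝ) - r.val := by linarith
    have hs : sin (π * r.val / p) = sin (π * (p - r.val) / p) := by
      rw [← sin_pi_sub]
      congr 1
      field_simp
    rw [hs]
    have h4 : 2 / π * (π * (p - r.val) / p) ≤ sin (π * (p - r.val) / p) := by
      apply mul_le_sin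
      · positivity
      · rw [div_le_iff₀ hp0]
        nlinarith [pi_pos]
    have h5 : 2 / π * (π * (p - r.val) / p) = 2 * (p - r.val) / p := by
      field_simp
    rw [h5] at h4
    have h6 : 1 / sin (π * (p - r.val) / p) ≤ 1 / (2 * (p - r.val) / p) :=
      one_div_le_one_div_of_le (by positivity) h4
    have h7 : 1 / (2 * ((p : ℝ) - r.val) / p) = (p : ℝ) / 2 * (1 / (p - r.val)) := by
      field_simp
    rw [h7] at h6
    have h8 : 0 ≤ (p : ℝ) / 2 * (1 / (r.val : ℝ)) := by positivity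
    rw [mul_add]
    linarith

lemma sum_harm : ∑ r : ZMod p, (if r = 0 then (0 : ℝ) else
    (p : ℝ) / 2 * (1 / (r.val : ℝ) + 1 / (p - r.val : ℝ))) ≤ p * (1 + log p) := by
  have hp : p.Prime := Fact.out
  have h1 : ∑ r : ZMod p, (if r = 0 then (0 : ℝ) else
      (p : ℝ) / 2 * (1 / (r.val : ℝ) + 1 / (p - r.val : ℝ))) =
      ∑ i ∈ range p, (if i = 0 then (0 : ℝ) else (p : ℝ) / 2 * (1 / (i : ℝ) + 1 / (p - i : ℝ))) := by
    refine sum_nbij' (fun r => r.val) (fun i => (i : ZMod p)) ?_ ?_ ?_ ?_ ?_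
    · intro r _
      exact mem_range.mpr (ZMod.val_lt r)
    · intro i _
      exact mem_univ _
    · intro r _
      simp
    · intro i hi
      exact ZMod.val_cast_of_lt (mem_range.mp hi)
    · intro r _
      simp only [ZMod.val_eq_zero]
  rw [h1]
  obtain ⟨q, rfl⟩ : ∃ q, p = q + 1 := ⟨p - 1, (Nat.sub_add_cancel hp.one_le).symm⟩
  rw [sum_range_succ']
  simp only [if_true, add_zero, Nat.add_eq_zero_iff, one_ne_zero, and_false, if_false]
  have h2 : ∑ i ∈ range q, (1 / (((q + 1 : ℕ) : ℝ) - ((i + 1 : ℕ) : ℝ))) =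
      ∑ i ∈ range q, 1 / (((i + 1 : ℕ) : ℝ)) := by
    rw [← sum_range_reflect]
    refine sum_congr rfl fun i hi => ?_
    have hi' := mem_range.mp hi
    congr 1
    have : ((q - 1 - i + 1 : ℕ) : ℝ) = (q : ℝ) - i := by
      have : q - 1 - i + 1 = q - i := by omega
      rw [this, Nat.cast_sub hi'.le]
    rw [this]
    push_cast
    ring
  have h3 : ∑ i ∈ range q, 1 / (((i + 1 : ℕ) : ℝ)) = (harmonic q : ℝ) := by
    simp [harmonic]
  rw [← mul_sum, sum_add_distrib, h2, h3]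
  have h4 := harmonic_le_one_add_log q
  have h5 : log q ≤ log ((q + 1 : ℕ) : ℝ) := by
    rcases Nat.eq_zero_or_pos q with rfl | hq
    · simp
    · apply log_le_log
      · exact_mod_cast hq
      · push_cast
        linarith
  have h6 : (0 : ℝ) < ((q + 1 : ℕ) : ℝ) := by positivity
  have h7 : ((q + 1 : ℕ) : ℝ) / 2 * ((harmonic q : ℝ) + harmonic q) =
      ((q + 1 : ℕ) : ℝ) * harmonic q := by ring
  rw [h7]
  apply mul_le_mul_of_nonneg_left _ h6.le
  linarith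

lemma sum_lin (α β : ZMod p) (hβ : β ≠ 0) (M : ℕ) :
    ∑ h ∈ univ.erase (0 : ZMod p), ‖lin p α β M h‖ ≤ p * (1 + log p) := by
  refine le_trans ?_ (sum_harm p)
  have h1 : ∑ r : ZMod p, (if r = 0 then (0 : ℝ) else
      (p : ℝ) / 2 * (1 / (r.val : ℝ) + 1 / (p - r.val : ℝ))) =
      ∑ h : ZMod p, (if h * β = 0 then (0 : ℝ) else
      (p : ℝ) / 2 * (1 / ((h * β).val : ℝ) + 1 / (p - (h * β).val : ℝ))) :=
    (Equiv.sum_comp (Equiv.mulRight₀ β hβ) (fun r : ZMod p => (if r = 0 then (0 : ℝ) else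
      (p : ℝ) / 2 * (1 / (r.val : ℝ) + 1 / (p - r.val : ℝ))))).symm
  have h3 : ∑ h ∈ univ.erase (0 : ZMod p), (if h * β = 0 then (0 : ℝ) else
      (p : ℝ) / 2 * (1 / ((h * β).val : ℝ) + 1 / (p - (h * β).val : ℝ))) =
      ∑ h : ZMod p, (if h * β = 0 then (0 : ℝ) else
      (p : ℝ) / 2 * (1 / ((h * β).val : ℝ) + 1 / (p - (h * β).val : ℝ))) :=
    Finset.sum_erase univ (by simp)
  rw [h1, ← h3]
  refine sum_le_sum fun h hh => ?_
  have h0 : h ≠ 0 := (mem_erase.mp hh).1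
  have h2 : h * β ≠ 0 := mul_ne_zero h0 hβ
  rw [if_neg h2]
  exact (lin_bound p α β h M h2).trans (std_sub_one p (h * β) h2)

lemma sum_units (f : ZMod p → ℂ) : ∑ x : (ZMod p)ˣ, f (x : ZMod p) = ∑ x : ZMod p, f x - f 0 := by
  rw [← Finset.sum_erase_add univ f (mem_univ (0 : ZMod p)), add_sub_cancel_right]
  refine sum_bij' (fun x _ => (x : ZMod p)) (fun x hx => Units.mk0 x (mem_erase.mp hx).1)
    ?_ ?_ ?_ ?_ ?_
  · intro x _
    exact mem_erase.mpr ⟨x.ne_zero, mem_univ _⟩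
  · intro x _
    exact mem_univ _
  · intro x _
    exact Units.ext rfl
  · intro x _
    rfl
  · intro x _
    rfl

lemma hyp_sum_char (u : ZMod p) : ∑ h : ZMod p, (ZMod.stdAddChar (h * u) : ℂ) =
    if u = 0 then (p : ℂ) else 0 := by
  have h := AddChar.sum_mulShift u (ZMod.isPrimitive_stdAddChar p)
  rw [h, ZMod.card]
  split_ifs with h0
  · rfl
  · exact Nat.cast_zero

lemma kl_zero_right (a : ZMod p) (ha : a ≠ 0) : kl p a 0 = -1 := by
  have h1 : kl p a 0 = ∑ x : (ZMod p)ˣ, (ZMod.stdAddChar ((x : ZMod p) * a) : ℂ) := by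
    refine sum_congr rfl fun x _ => ?_
    congr 1
    ring
  rw [h1, sum_units p (fun x => (ZMod.stdAddChar (x * a) : ℂ)), hyp_sum_char, if_neg ha]
  simp

lemma kl_zero_left (b : ZMod p) (hb : b ≠ 0) : kl p 0 b = -1 := by
  rw [← kl_zero_right p b hb, kl, kl]
  refine (Equiv.sum_comp (Equiv.inv (ZMod p)ˣ) _).symm.trans (sum_congr rfl fun x _ => ?_)
  have h1 : (((Equiv.inv (ZMod p)ˣ) x)⁻¹ : (ZMod p)ˣ) = x := inv_inv x
  rw [h1, zero_mul, zero_mul, zero_add, add_zero]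

lemma kl_zero_zero : kl p 0 0 = p - 1 := by
  have hp : p.Prime := Fact.out
  have h1 : kl p 0 0 = ∑ x : (ZMod p)ˣ, (1 : ℂ) := by
    refine sum_congr rfl fun x _ => ?_
    rw [zero_mul, zero_mul, add_zero, AddChar.map_zero_eq_one]
  rw [h1, sum_const, card_univ, ZMod.card_units, nsmul_eq_mul, Nat.cast_sub hp.one_le,
    Nat.cast_one, mul_one]

lemma kl_le (a b : ZMod p) (ha : a ≠ 0) (hb : b ≠ 0) : ‖kl p a b‖ ≤ 2 * (p : ℝ) ^ (3 / 4 : ℝ) := by
  have h := kl_bound p a b ha hb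
  have hp0 : (0 : ℝ) ≤ p := Nat.cast_nonneg p
  have h1 : (2 * (p : ℝ) ^ (3 / 4 : ℝ)) ^ 4 = 16 * (p : ℝ) ^ 3 := by
    rw [mul_pow, ← Real.rpow_natCast ((p : ℝ) ^ (3 / 4 : ℝ)) 4, ← Real.rpow_mul hp0,
      ← Real.rpow_natCast (p : ℝ) 3]
    norm_num
  have h2 : ‖kl p a b‖ ^ 4 ≤ (2 * (p : ℝ) ^ (3 / 4 : ℝ)) ^ 4 := by
    rw [h1]
    have : 0 ≤ (p : ℝ) ^ 3 := by positivity
    linarith
  exact le_of_pow_le_pow_left₀ (by norm_num) (by positivity) h2

lemma swap2 {ι : Type*} (s : Finset ι) (f : ZMod p → ZMod p → ι → ℂ) :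
    ∑ h1 : ZMod p, ∑ h2 : ZMod p, ∑ i ∈ s, f h1 h2 i =
      ∑ i ∈ s, ∑ h1 : ZMod p, ∑ h2 : ZMod p, f h1 h2 i := by
  have : ∀ h1 : ZMod p, ∑ h2 : ZMod p, ∑ i ∈ s, f h1 h2 i = ∑ i ∈ s, ∑ h2 : ZMod p, f h1 h2 i :=
    fun h1 => sum_comm
  rw [sum_congr rfl fun h1 _ => this h1, sum_comm]

lemma pair_eq (u v c : ZMod p) (hc : c ≠ 0) :
    (if u * v = c then (p : ℂ) ^ 2 else 0) =
      ∑ x : (ZMod p)ˣ, (∑ h1 : ZMod p, (ZMod.stdAddChar (h1 * (u - (x : ZMod p))) : ℂ)) *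
        (∑ h2 : ZMod p, (ZMod.stdAddChar (h2 * (v - c * ((x⁻¹ : (ZMod p)ˣ) : ZMod p))) : ℂ)) := by
  simp_rw [hyp_sum_char]
  by_cases hu : u = 0
  · subst hu
    rw [zero_mul, if_neg (Ne.symm hc)]
    symm
    apply sum_eq_zero
    intro x _
    rw [if_neg, zero_mul]
    rw [zero_sub, neg_eq_zero]
    exact x.ne_zero
  · rw [sum_eq_single (Units.mk0 u hu)]
    · simp only [Units.val_mk0, sub_self, if_true, Units.val_inv_eq_inv_val]
      by_cases h : u * v = c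
      · rw [if_pos h, if_pos, sq]
        rw [← h]
        field_simp
        ring
      · rw [if_neg h, if_neg, mul_zero]
        intro h'
        apply h
        rw [sub_eq_zero] at h'
        rw [h']
        field_simp
    · intro x _ hx
      rw [if_neg, zero_mul]
      intro h
      apply hx
      apply Units.ext
      rw [Units.val_mk0]
      exact (sub_eq_zero.mp h).symm
    · intro h
      exact absurd (mem_univ _) h

lemma count_eq (α β γ ε c : ZMod p) (hc : c ≠ 0) (M S : ℕ) :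
    ((((range M) ×ˢ (range S)).filter fun ij : ℕ × ℕ =>
        (α + β * (ij.1 : ZMod p)) * (γ + ε * (ij.2 : ZMod p)) = c).card : ℂ) * (p : ℂ) ^ 2 =
      ∑ h1 : ZMod p, ∑ h2 : ZMod p, lin p α β M h1 * lin p γ ε S h2 * kl p (-h1) (-h2 * c) := by
  have h1 : ∀ h1 h2 : ZMod p, lin p α β M h1 * lin p γ ε S h2 * kl p (-h1) (-h2 * c) =
      ∑ i ∈ range M, ∑ j ∈ range S, ∑ x : (ZMod p)ˣ,
        (ZMod.stdAddChar (h1 * ((α + β * (i : ZMod p)) - (x : ZMod p))) : ℂ) *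
        (ZMod.stdAddChar (h2 * ((γ + ε * (j : ZMod p)) - c * ((x⁻¹ : (ZMod p)ˣ) : ZMod p))) : ℂ) := by
    intro h1 h2
    rw [lin, lin, kl, sum_mul_sum, sum_mul]
    refine sum_congr rfl fun i _ => ?_
    rw [sum_mul]
    refine sum_congr rfl fun j _ => ?_
    rw [mul_sum]
    refine sum_congr rfl fun x _ => ?_
    rw [← AddChar.map_add_eq_mul, ← AddChar.map_add_eq_mul, ← AddChar.map_add_eq_mul]
    congr 1
    ring
  simp_rw [h1]
  rw [swap2]
  have h2 : ∀ i : ℕ, ∑ h1 : ZMod p, ∑ h2 : ZMod p, ∑ j ∈ range S, ∑ x : (ZMod p)ˣ,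
        (ZMod.stdAddChar (h1 * ((α + β * (i : ZMod p)) - (x : ZMod p))) : ℂ) *
        (ZMod.stdAddChar (h2 * ((γ + ε * (j : ZMod p)) - c * ((x⁻¹ : (ZMod p)ˣ) : ZMod p))) : ℂ) =
      ∑ j ∈ range S, if (α + β * (i : ZMod p)) * (γ + ε * (j : ZMod p)) = c
        then (p : ℂ) ^ 2 else 0 := by
    intro i
    rw [swap2]
    refine sum_congr rfl fun j _ => ?_
    rw [swap2, pair_eq p _ _ c hc]
    refine sum_congr rfl fun x _ => ?_
    rw [sum_mul_sum]
  simp_rw [h2]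
  rw [← sum_product', ← sum_filter, sum_const, nsmul_eq_mul]

lemma lin_zero (α β : ZMod p) (M : ℕ) : lin p α β M 0 = M := by
  simp [lin]

theorem hyperbola (p : ℕ) [Fact p.Prime] (α β γ ε c : ZMod p) (hβ : β ≠ 0) (hε : ε ≠ 0)
    (hc : c ≠ 0) (M S : ℕ) :
    |((((range M) ×ˢ (range S)).filter fun ij : ℕ × ℕ =>
        (α + β * (ij.1 : ZMod p)) * (γ + ε * (ij.2 : ZMod p)) = c).card : ℝ) - M * S / p| ≤
      M * S / p ^ 2 + (M + S) * (1 + log p) / p + 2 * (p : ℝ) ^ (3 / 4 : ℝ) * (1 + log p) ^ 2 := by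
  have hp0 : (0 : ℝ) < p := by exact_mod_cast (Fact.out : p.Prime).pos
  have hpc : (p : ℂ) ≠ 0 := by exact_mod_cast (Fact.out : p.Prime).ne_zero
  set N := (((range M) ×ˢ (range S)).filter fun ij : ℕ × ℕ =>
        (α + β * (ij.1 : ZMod p)) * (γ + ε * (ij.2 : ZMod p)) = c).card with hN
  set F := lin p α β M with hF
  set G := lin p γ ε S with hG
  have hFs := sum_lin p α β hβ M
  have hGs := sum_lin p γ ε hε S
  rw [← hF] at hFs
  rw [← hG] at hGs
  set L : ℝ := p * (1 + log p) with hL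
  have hcount := count_eq p α β γ ε c hc M S
  rw [← hN, ← hF, ← hG] at hcount
  have hsplit : ∀ f : ZMod p → ℂ, ∑ h : ZMod p, f h = ∑ h ∈ univ.erase (0 : ZMod p), f h + f 0 :=
    fun f => (Finset.sum_erase_add univ f (mem_univ (0 : ZMod p))).symm
  have hF0 : F 0 = M := lin_zero p α β M
  have hG0 : G 0 = S := lin_zero p γ ε S
  have e1 : ∑ h1 ∈ univ.erase (0 : ZMod p), F h1 * G 0 * kl p (-h1) (-0 * c) =
      ∑ h1 ∈ univ.erase (0 : ZMod p), (-(S : ℂ)) * F h1 := by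
    refine sum_congr rfl fun h1 hh => ?_
    have h0 : -h1 ≠ 0 := neg_ne_zero.mpr (mem_erase.mp hh).1
    rw [neg_zero, zero_mul, kl_zero_right p _ h0, hG0]
    ring
  have e2 : ∑ h2 ∈ univ.erase (0 : ZMod p), F 0 * G h2 * kl p (-0) (-h2 * c) =
      ∑ h2 ∈ univ.erase (0 : ZMod p), (-(M : ℂ)) * G h2 := by
    refine sum_congr rfl fun h2 hh => ?_
    have h0 : -h2 * c ≠ 0 := mul_ne_zero (neg_ne_zero.mpr (mem_erase.mp hh).1) hc
    rw [neg_zero, kl_zero_left p _ h0, hF0]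
    ring
  have e3 : F 0 * G 0 * kl p (-0) (-0 * c) = M * S * (p - 1) := by
    rw [neg_zero, zero_mul, kl_zero_zero, hF0, hG0]
  have key : (N : ℂ) * (p : ℂ) ^ 2 =
      ∑ h1 ∈ univ.erase (0 : ZMod p), ∑ h2 ∈ univ.erase (0 : ZMod p),
        F h1 * G h2 * kl p (-h1) (-h2 * c) +
      ∑ h1 ∈ univ.erase (0 : ZMod p), (-(S : ℂ)) * F h1 +
      (∑ h2 ∈ univ.erase (0 : ZMod p), (-(M : ℂ)) * G h2 + M * S * (p - 1)) := by
    rw [hcount, hsplit]
    rw [hsplit (fun h2 => F 0 * G h2 * kl p (-0) (-h2 * c)), e2, e3]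
    congr 1
    rw [← e1, ← sum_add_distrib]
    refine sum_congr rfl fun h1 _ => ?_
    rw [hsplit]
  have key2 : ((N : ℂ) - M * S / p) * (p : ℂ) ^ 2 =
      ∑ h1 ∈ univ.erase (0 : ZMod p), ∑ h2 ∈ univ.erase (0 : ZMod p),
        F h1 * G h2 * kl p (-h1) (-h2 * c) +
      ∑ h1 ∈ univ.erase (0 : ZMod p), (-(S : ℂ)) * F h1 +
      (∑ h2 ∈ univ.erase (0 : ZMod p), (-(M : ℂ)) * G h2 + (-(M * S : ℂ))) := by
    have h1 : ((N : ℂ) - M * S / p) * (p : ℂ) ^ 2 = (N : ℂ) * (p : ℂ) ^ 2 - M * S * p := by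
      field_simp
    rw [h1, key]
    ring
  have b1 : ‖∑ h1 ∈ univ.erase (0 : ZMod p), ∑ h2 ∈ univ.erase (0 : ZMod p),
        F h1 * G h2 * kl p (-h1) (-h2 * c)‖ ≤ L * L * (2 * (p : ℝ) ^ (3 / 4 : ℝ)) := by
    calc ‖∑ h1 ∈ univ.erase (0 : ZMod p), ∑ h2 ∈ univ.erase (0 : ZMod p),
        F h1 * G h2 * kl p (-h1) (-h2 * c)‖
        ≤ ∑ h1 ∈ univ.erase (0 : ZMod p), ∑ h2 ∈ univ.erase (0 : ZMod p),
          ‖F h1‖ * ‖G h2‖ * (2 * (p : ℝ) ^ (3 / 4 : ℝ)) := by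
          refine (norm_sum_le _ _).trans (sum_le_sum fun h1 hh1 => ?_)
          refine (norm_sum_le _ _).trans (sum_le_sum fun h2 hh2 => ?_)
          rw [norm_mul, norm_mul]
          apply mul_le_mul_of_nonneg_left _ (by positivity)
          exact kl_le p _ _ (neg_ne_zero.mpr (mem_erase.mp hh1).1)
            (mul_ne_zero (neg_ne_zero.mpr (mem_erase.mp hh2).1) hc)
      _ = (∑ h1 ∈ univ.erase (0 : ZMod p), ‖F h1‖) * (∑ h2 ∈ univ.erase (0 : ZMod p), ‖G h2‖) *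
          (2 * (p : ℝ) ^ (3 / 4 : ℝ)) := by
          rw [sum_mul_sum, sum_mul]
          refine sum_congr rfl fun h1 _ => ?_
          rw [sum_mul]
      _ ≤ L * L * (2 * (p : ℝ) ^ (3 / 4 : ℝ)) := by
          apply mul_le_mul_of_nonneg_right _ (by positivity)
          exact mul_le_mul hFs hGs (sum_nonneg fun _ _ => norm_nonneg _)
            (le_trans (sum_nonneg fun _ _ => norm_nonneg _) hFs)
  have b2 : ‖∑ h1 ∈ univ.erase (0 : ZMod p), (-(S : ℂ)) * F h1‖ ≤ S * L := by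
    rw [← mul_sum, norm_mul, norm_neg, Complex.norm_natCast]
    exact mul_le_mul_of_nonneg_left ((norm_sum_le _ _).trans hFs) (Nat.cast_nonneg _)
  have b3 : ‖∑ h2 ∈ univ.erase (0 : ZMod p), (-(M : ℂ)) * G h2‖ ≤ M * L := by
    rw [← mul_sum, norm_mul, norm_neg, Complex.norm_natCast]
    exact mul_le_mul_of_nonneg_left ((norm_sum_le _ _).trans hGs) (Nat.cast_nonneg _)
  have b4 : ‖(-(M * S : ℂ))‖ = M * S := by
    rw [norm_neg, norm_mul, Complex.norm_natCast, Complex.norm_natCast]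
  have b5 : ‖((N : ℂ) - M * S / p) * (p : ℂ) ^ 2‖ ≤
      L * L * (2 * (p : ℝ) ^ (3 / 4 : ℝ)) + S * L + (M * L + M * S) := by
    rw [key2]
    refine (norm_add_le _ _).trans (add_le_add ((norm_add_le _ _).trans (add_le_add b1 b2)) ?_)
    exact (norm_add_le _ _).trans (add_le_add b3 b4.le)
  have b6 : ‖((N : ℂ) - M * S / p) * (p : ℂ) ^ 2‖ = |(N : ℝ) - M * S / p| * (p : ℝ) ^ 2 := by
    rw [norm_mul, norm_pow, Complex.norm_natCast]
    congr 1
    have : ((N : ℂ) - M * S / p) = (((N : ℝ) - M * S / p : ℝ) : ℂ) := by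
      push_cast
      rfl
    rw [this, Complex.norm_real, Real.norm_eq_abs]
  rw [b6] at b5
  have hp2 : (0 : ℝ) < (p : ℝ) ^ 2 := by positivity
  rw [← le_div_iff₀ hp2] at b5
  refine b5.trans (le_of_eq ?_)
  rw [hL]
  field_simp
  ring

end Pool.Agent.MP_2f88e5_nt
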