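import Mathlib

/-!
Selberg's upper bound sieve (odd primes up to `z`, density `1/d`), for the project MP_2f88e5_nt.
-/

namespace Pool.Agent.MP_2f88e5_nt

open Finset Real

/-- The odd squarefree numbers up to `z`. -/
def selD (z : ℕ) : Finset ℕ := (Icc 1 z).filter (fun d => Odd d ∧ Squarefree d)

/-- The Selberg sum `G`. -/
noncomputable def selG (z : ℕ) : ℝ := ∑ n ∈ selD z, (Nat.totient n : ℝ)⁻¹

/-- The tail sums of `G`. -/
noncomputable def selS (z d : ℕ) : ℝ :=
  ∑ e ∈ (selD z).filter (fun e => d ∣ e), (Nat.totient e : ℝ)⁻¹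

/-- The Selberg weights. -/
noncomputable def selL (z d : ℕ) : ℝ :=
  (ArithmeticFunction.moebius d : ℝ) * (d / selG z) * selS z d

theorem mem_selD {z d : ℕ} : d ∈ selD z ↔ (1 ≤ d ∧ d ≤ z) ∧ Odd d ∧ Squarefree d := by
  simp [selD]

theorem one_mem_selD {z : ℕ} (hz : 1 ≤ z) : 1 ∈ selD z := by
  simp [mem_selD, hz]

theorem selD_dvd {z d e : ℕ} (hd : d ∈ selD z) (h : e ∣ d) : e ∈ selD z := by
  rw [mem_selD] at hd ⊢
  obtain ⟨⟨h1, h2⟩, h3, h4⟩ := hd
  refine ⟨⟨Nat.pos_of_dvd_of_pos h (by omega), (Nat.le_of_dvd (by omega) h).trans h2⟩,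
    h3.of_dvd_nat h, h4.squarefree_of_dvd h⟩

theorem totient_pos_of_mem {z d : ℕ} (hd : d ∈ selD z) : (0 : ℝ) < Nat.totient d := by
  rw [mem_selD] at hd
  exact_mod_cast Nat.totient_pos.mpr (by omega)

theorem selG_pos {z : ℕ} (hz : 1 ≤ z) : 0 < selG z := by
  apply Finset.sum_pos
  · intro n hn
    exact inv_pos.mpr (totient_pos_of_mem hn)
  · exact ⟨1, one_mem_selD hz⟩

theorem selS_one (z : ℕ) : selS z 1 = selG z := by
  simp [selS, selG]

theorem selL_one {z : ℕ} (hz : 1 ≤ z) : selL z 1 = 1 := by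
  have := (selG_pos hz).ne'
  simp [selL, selS_one, this]

/-- Sum of the Möbius function over the divisors. -/
theorem sum_moebius_divisors (n : ℕ) :
    ∑ g ∈ n.divisors, ArithmeticFunction.moebius g = if n = 1 then 1 else 0 := by
  have h := congrArg (fun f : ArithmeticFunction ℤ => f n) ArithmeticFunction.coe_zeta_mul_moebius
  simp only [ArithmeticFunction.coe_zeta_mul_apply, ArithmeticFunction.one_apply] at h
  exact h

/-- Sum of the Möbius function over an interval in the divisibility order. -/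
theorem sum_moebius_interval (e f : ℕ) (hf : Squarefree f) (hef : e ∣ f) :
    ∑ d ∈ f.divisors.filter (fun d => e ∣ d), ArithmeticFunction.moebius d =
      if f = e then ArithmeticFunction.moebius e else 0 := by
  obtain ⟨k, rfl⟩ := hef
  have hne : e * k ≠ 0 := hf.ne_zero
  have he : e ≠ 0 := left_ne_zero_of_mul hne
  have hk : k ≠ 0 := right_ne_zero_of_mul hne
  have hcop : Nat.Coprime e k := Nat.coprime_of_squarefree_mul hf
  have key : ∑ d ∈ (e * k).divisors.filter (fun d => e ∣ d), ArithmeticFunction.moebius d =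
      ∑ g ∈ k.divisors, ArithmeticFunction.moebius e * ArithmeticFunction.moebius g := by
    symm
    apply Finset.sum_bij (fun g _ => e * g)
    · intro g hg
      simp only [mem_filter, Nat.mem_divisors] at hg ⊢
      exact ⟨⟨Nat.mul_dvd_mul_left e hg.1, hne⟩, Dvd.intro _ rfl⟩
    · intro a _ b _ hab
      exact Nat.eq_of_mul_eq_mul_left (Nat.pos_of_ne_zero he) hab
    · intro b hb
      simp only [mem_filter, Nat.mem_divisors] at hb
      obtain ⟨c, rfl⟩ := hb.2
      exact ⟨c, by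
        simp only [Nat.mem_divisors]
        exact ⟨Nat.dvd_of_mul_dvd_mul_left (Nat.pos_of_ne_zero he) hb.1.1, hk⟩, rfl⟩
    · intro g hg
      rw [Nat.mem_divisors] at hg
      exact (ArithmeticFunction.isMultiplicative_moebius.map_mul_of_coprime
        (hcop.coprime_dvd_right hg.1)).symm
  rw [key, ← Finset.mul_sum, sum_moebius_divisors k]
  by_cases h1 : k = 1
  · subst h1; simp
  · have : e * k ≠ e := by
      intro h
      apply h1
      exact Nat.eq_of_mul_eq_mul_left (Nat.pos_of_ne_zero he) (by rw [h, mul_one])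
    simp [h1, this]

/-- The diagonalising sums. -/
theorem sum_selL_div {z e : ℕ} (he : e ∈ selD z) :
    ∑ d ∈ (selD z).filter (fun d => e ∣ d), selL z d / d =
      (ArithmeticFunction.moebius e : ℝ) / (selG z * Nat.totient e) := by
  have h1 : ∀ d ∈ (selD z).filter (fun d => e ∣ d), selL z d / d =
      (selG z)⁻¹ * ∑ f ∈ selD z, if e ∣ d ∧ d ∣ f then
        (ArithmeticFunction.moebius d : ℝ) * (Nat.totient f : ℝ)⁻¹ else 0 := by
    intro d hd
    rw [mem_filter] at hd
    have hd0 : (d : ℝ) ≠ 0 := by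
      have := (mem_selD.mp hd.1).1.1
      positivity
    rw [selL, selS, Finset.sum_filter, Finset.mul_sum, Finset.mul_sum, Finset.sum_div]
    apply Finset.sum_congr rfl
    intro f _
    by_cases hdf : d ∣ f
    · simp only [hdf, hd.2, and_self, if_true]
      field_simp
    · simp [hdf]
  rw [Finset.sum_congr rfl h1, ← Finset.mul_sum, Finset.sum_comm]
  have h2 : ∀ f ∈ selD z, ∑ d ∈ (selD z).filter (fun d => e ∣ d), (if e ∣ d ∧ d ∣ f then
        (ArithmeticFunction.moebius d : ℝ) * (Nat.totient f : ℝ)⁻¹ else 0) =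
      if f = e then (ArithmeticFunction.moebius e : ℝ) * (Nat.totient e : ℝ)⁻¹ else 0 := by
    intro f hf
    by_cases hef : e ∣ f
    · have hsq : Squarefree f := (mem_selD.mp hf).2.2
      have := sum_moebius_interval e f hsq hef
      rw [← Finset.sum_filter, Finset.filter_filter]
      have hset : (selD z).filter (fun d => e ∣ d ∧ e ∣ d ∧ d ∣ f) =
          f.divisors.filter (fun d => e ∣ d) := by
        ext d
        simp only [mem_filter, Nat.mem_divisors]
        constructor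
        · rintro ⟨_, h1, _, h2⟩
          exact ⟨⟨h2, hsq.ne_zero⟩, h1⟩
        · rintro ⟨⟨h1, _⟩, h2⟩
          exact ⟨selD_dvd hf h1, h2, h2, h1⟩
      rw [hset, ← Finset.sum_mul]
      have hcast : (∑ d ∈ f.divisors.filter (fun d => e ∣ d),
          (ArithmeticFunction.moebius d : ℝ)) =
          ((if f = e then ArithmeticFunction.moebius e else 0 : ℤ) : ℝ) := by
        rw [← this]; push_cast; rfl
      rw [hcast]
      by_cases hfe : f = e
      · subst hfe; simp
      · simp [hfe]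
    · have hfe : f ≠ e := by rintro rfl; exact hef dvd_rfl
      rw [if_neg hfe]
      apply Finset.sum_eq_zero
      intro d _
      rw [if_neg]
      rintro ⟨h1, h2⟩
      exact hef (h1.trans h2)
  rw [Finset.sum_congr rfl h2, Finset.sum_ite_eq' (selD z) e, if_pos he]
  rw [div_eq_mul_inv, mul_inv]
  ring

/-- The quadratic form takes the value `1/G`. -/
theorem quad_form {z : ℕ} (hz : 1 ≤ z) :
    ∑ d1 ∈ selD z, ∑ d2 ∈ selD z, selL z d1 * selL z d2 / (Nat.lcm d1 d2 : ℝ) = (selG z)⁻¹ := by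
  have hG := selG_pos hz
  have h1 : ∀ d1 ∈ selD z, ∀ d2 ∈ selD z,
      selL z d1 * selL z d2 / (Nat.lcm d1 d2 : ℝ) =
      ∑ e ∈ selD z, (Nat.totient e : ℝ) * ((if e ∣ d1 then selL z d1 / d1 else 0) *
        (if e ∣ d2 then selL z d2 / d2 else 0)) := by
    intro d1 hd1 d2 hd2
    have p1 : 0 < d1 := (mem_selD.mp hd1).1.1
    have p2 : 0 < d2 := (mem_selD.mp hd2).1.1
    have hlcm : (Nat.lcm d1 d2 : ℝ) * (Nat.gcd d1 d2 : ℝ) = d1 * d2 := by
      rw [mul_comm]; exact_mod_cast Nat.gcd_mul_lcm d1 d2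
    have hgpos : 0 < Nat.gcd d1 d2 := Nat.gcd_pos_of_pos_left _ p1
    have hlpos : 0 < Nat.lcm d1 d2 := Nat.lcm_pos p1 p2
    have hgcd : (Nat.gcd d1 d2 : ℝ) = ∑ e ∈ selD z, if e ∣ d1 ∧ e ∣ d2 then
        (Nat.totient e : ℝ) else 0 := by
      rw [← Finset.sum_filter]
      have hset : (selD z).filter (fun e => e ∣ d1 ∧ e ∣ d2) = (Nat.gcd d1 d2).divisors := by
        ext e
        simp only [mem_filter, Nat.mem_divisors]
        constructor
        · rintro ⟨_, h1, h2⟩
          exact ⟨Nat.dvd_gcd h1 h2, hgpos.ne'⟩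
        · rintro ⟨h1, _⟩
          exact ⟨selD_dvd hd1 (h1.trans (Nat.gcd_dvd_left _ _)), h1.trans (Nat.gcd_dvd_left _ _),
            h1.trans (Nat.gcd_dvd_right _ _)⟩
      rw [hset]
      have := Nat.sum_totient (Nat.gcd d1 d2)
      exact_mod_cast this.symm
    have hmain : selL z d1 * selL z d2 / (Nat.lcm d1 d2 : ℝ) =
        (Nat.gcd d1 d2 : ℝ) * ((selL z d1 / d1) * (selL z d2 / d2)) := by
      have q1 : (d1 : ℝ) ≠ 0 := by positivity
      have q2 : (d2 : ℝ) ≠ 0 := by positivity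
      have q3 : (Nat.lcm d1 d2 : ℝ) ≠ 0 := by positivity
      field_simp
      linear_combination (selL z d1 * selL z d2) * (-hlcm)
    rw [hmain, hgcd, Finset.sum_mul]
    apply Finset.sum_congr rfl
    intro e _
    by_cases ha : e ∣ d1
    · by_cases hb : e ∣ d2
      · simp [ha, hb]
      · simp [hb]
    · simp [ha]
  calc ∑ d1 ∈ selD z, ∑ d2 ∈ selD z, selL z d1 * selL z d2 / (Nat.lcm d1 d2 : ℝ)
      = ∑ d1 ∈ selD z, ∑ d2 ∈ selD z, ∑ e ∈ selD z,
        (Nat.totient e : ℝ) * ((if e ∣ d1 then selL z d1 / d1 else 0) *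
        (if e ∣ d2 then selL z d2 / d2 else 0)) := by
        apply Finset.sum_congr rfl
        intro d1 hd1
        exact Finset.sum_congr rfl (fun d2 hd2 => h1 d1 hd1 d2 hd2)
    _ = ∑ e ∈ selD z, (Nat.totient e : ℝ) *
        ((∑ d ∈ selD z, if e ∣ d then selL z d / d else 0) *
          (∑ d ∈ selD z, if e ∣ d then selL z d / d else 0)) := by
        rw [Finset.sum_congr rfl (fun d1 _ => Finset.sum_comm), Finset.sum_comm]
        apply Finset.sum_congr rfl
        intro e _
        rw [Finset.sum_mul_sum, Finset.mul_sum]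
        apply Finset.sum_congr rfl
        intro d1 _
        rw [Finset.mul_sum]
    _ = ∑ e ∈ selD z, (selG z)⁻¹ * (selG z)⁻¹ * (Nat.totient e : ℝ)⁻¹ := by
        apply Finset.sum_congr rfl
        intro e he
        rw [← Finset.sum_filter, sum_selL_div he]
        have ht := (totient_pos_of_mem he).ne'
        have hm : ((ArithmeticFunction.moebius e : ℝ)) ^ 2 = 1 := by
          exact_mod_cast ArithmeticFunction.moebius_sq_eq_one_of_squarefree (mem_selD.mp he).2.2
        field_simp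
        linear_combination hm
    _ = (selG z)⁻¹ := by
        rw [← Finset.mul_sum]
        change _ * selG z = _
        field_simp

/-- `∑_{k ∣ d} 1/φ(k) = d/φ(d)` for squarefree `d`. -/
theorem sum_inv_totient (d : ℕ) (hd : Squarefree d) :
    ∑ k ∈ d.divisors, (Nat.totient k : ℝ)⁻¹ = d / Nat.totient d := by
  have hd0 : d ≠ 0 := hd.ne_zero
  have hdp : (0 : ℝ) < Nat.totient d := by
    exact_mod_cast Nat.totient_pos.mpr (Nat.pos_of_ne_zero hd0)
  have h : ∀ k ∈ d.divisors, (Nat.totient k : ℝ)⁻¹ = (Nat.totient (d / k) : ℝ) / Nat.totient d := by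
    intro k hk
    rw [Nat.mem_divisors] at hk
    obtain ⟨c, rfl⟩ := hk.1
    have hk0 : k ≠ 0 := left_ne_zero_of_mul hd0
    have hc0 : c ≠ 0 := right_ne_zero_of_mul hd0
    rw [Nat.mul_div_cancel_left c (Nat.pos_of_ne_zero hk0),
      Nat.totient_mul (Nat.coprime_of_squarefree_mul hd)]
    have h1 : (0 : ℝ) < Nat.totient k := by
      exact_mod_cast Nat.totient_pos.mpr (Nat.pos_of_ne_zero hk0)
    have h2 : (0 : ℝ) < Nat.totient c := by
      exact_mod_cast Nat.totient_pos.mpr (Nat.pos_of_ne_zero hc0)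
    push_cast
    field_simp
  rw [Finset.sum_congr rfl h, ← Finset.sum_div]
  congr 1
  have h2 := Nat.sum_div_divisors d (fun k => (Nat.totient k : ℝ))
  rw [h2]
  have := Nat.sum_totient d
  exact_mod_cast this

/-- The key inequality for the bound of the weights. -/
theorem selS_le {z d : ℕ} (hd : d ∈ selD z) : (d : ℝ) * selS z d ≤ selG z := by
  have hdm := mem_selD.mp hd
  have hd0 : 0 < d := hdm.1.1
  have hsq : Squarefree d := hdm.2.2
  set Gd : Finset ℕ := (selD z).filter (fun g => d * g ≤ z ∧ Nat.Coprime d g) with hGd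
  have hφd := totient_pos_of_mem hd
  -- the tail sum
  have hS : selS z d = (Nat.totient d : ℝ)⁻¹ * ∑ g ∈ Gd, (Nat.totient g : ℝ)⁻¹ := by
    rw [selS, Finset.mul_sum]
    symm
    apply Finset.sum_bij (fun g _ => d * g)
    · intro g hg
      simp only [hGd, mem_filter, mem_selD] at hg ⊢
      obtain ⟨⟨⟨g1, g2⟩, g3, g4⟩, g5, g6⟩ := hg
      refine ⟨⟨⟨Nat.mul_pos hd0 g1, g5⟩, hdm.2.1.mul g3, ?_⟩, Dvd.intro _ rfl⟩
      exact (Nat.squarefree_mul g6).mpr ⟨hsq, g4⟩
    · intro a _ b _ hab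
      exact Nat.eq_of_mul_eq_mul_left hd0 hab
    · intro e he
      simp only [mem_filter] at he
      obtain ⟨he1, c, rfl⟩ := he
      have hm := mem_selD.mp he1
      refine ⟨c, ?_, rfl⟩
      simp only [hGd, mem_filter]
      exact ⟨selD_dvd he1 (Dvd.intro_left _ rfl), hm.1.2, Nat.coprime_of_squarefree_mul hm.2.2⟩
    · intro g hg
      simp only [hGd, mem_filter] at hg
      rw [Nat.totient_mul hg.2.2, Nat.cast_mul, mul_inv]
  have hprod : (∑ k ∈ d.divisors, (Nat.totient k : ℝ)⁻¹) * (∑ g ∈ Gd, (Nat.totient g : ℝ)⁻¹) ≤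
      selG z := by
    rw [Finset.sum_mul_sum, ← Finset.sum_product']
    have hinj : ∀ x ∈ d.divisors ×ˢ Gd, ∀ y ∈ d.divisors ×ˢ Gd,
        x.1 * x.2 = y.1 * y.2 → x = y := by
      have hg : ∀ x ∈ d.divisors ×ˢ Gd, Nat.gcd d (x.1 * x.2) = x.1 := by
        intro x hx
        simp only [mem_product, Nat.mem_divisors, hGd, mem_filter] at hx
        rw [Nat.Coprime.gcd_mul_right_cancel_right _ hx.2.2.2.symm]
        exact Nat.gcd_eq_right hx.1.1
      intro x hx y hy hxy
      have h1 : x.1 = y.1 := by rw [← hg x hx, ← hg y hy, hxy]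
      have hx1 : 0 < x.1 := by
        simp only [mem_product, Nat.mem_divisors] at hx
        exact Nat.pos_of_dvd_of_pos hx.1.1 hd0
      rw [h1] at hxy
      exact Prod.ext h1 (Nat.eq_of_mul_eq_mul_left (h1 ▸ hx1) hxy)
    calc ∑ x ∈ d.divisors ×ˢ Gd, (Nat.totient x.1 : ℝ)⁻¹ * (Nat.totient x.2 : ℝ)⁻¹
        = ∑ x ∈ d.divisors ×ˢ Gd, (Nat.totient (x.1 * x.2) : ℝ)⁻¹ := by
          apply Finset.sum_congr rfl
          intro x hx
          simp only [mem_product, Nat.mem_divisors, hGd, mem_filter] at hx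
          rw [Nat.totient_mul (hx.2.2.2.coprime_dvd_left hx.1.1), Nat.cast_mul, mul_inv]
      _ = ∑ n ∈ (d.divisors ×ˢ Gd).image (fun x => x.1 * x.2), (Nat.totient n : ℝ)⁻¹ := by
          rw [Finset.sum_image hinj]
      _ ≤ selG z := by
          apply Finset.sum_le_sum_of_subset_of_nonneg
          · intro n hn
            simp only [mem_image, mem_product, Nat.mem_divisors, hGd, mem_filter] at hn
            obtain ⟨x, ⟨⟨hx1, _⟩, hx2, hx3, hx4⟩, rfl⟩ := hn
            have hxm := mem_selD.mp hx2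
            have hx1m := mem_selD.mp (selD_dvd hd hx1)
            rw [mem_selD]
            refine ⟨⟨Nat.mul_pos hx1m.1.1 hxm.1.1, ?_⟩, hx1m.2.1.mul hxm.2.1, ?_⟩
            · exact (Nat.mul_le_mul_right _ (Nat.le_of_dvd hd0 hx1)).trans hx3
            · exact (Nat.squarefree_mul (hx4.coprime_dvd_left hx1)).mpr ⟨hx1m.2.2, hxm.2.2⟩
          · intro n _ _
            positivity
  rw [sum_inv_totient d hsq] at hprod
  rw [hS]
  calc (d : ℝ) * ((Nat.totient d : ℝ)⁻¹ * ∑ g ∈ Gd, (Nat.totient g : ℝ)⁻¹)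
      = (d : ℝ) / Nat.totient d * ∑ g ∈ Gd, (Nat.totient g : ℝ)⁻¹ := by ring
    _ ≤ selG z := hprod

theorem abs_selL_le {z d : ℕ} (hz : 1 ≤ z) (hd : d ∈ selD z) : |selL z d| ≤ 1 := by
  have hG := selG_pos hz
  have hS0 : 0 ≤ selS z d := Finset.sum_nonneg (fun _ _ => by positivity)
  have hμ : |(ArithmeticFunction.moebius d : ℝ)| ≤ 1 := by
    exact_mod_cast ArithmeticFunction.abs_moebius_le_one
  rw [selL, abs_mul, abs_mul, abs_of_nonneg hS0, abs_of_nonneg (by positivity : (0 : ℝ) ≤ d / selG z)]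
  have h1 := selS_le hd
  have h2 : (d / selG z) * selS z d ≤ 1 := by
    rw [div_mul_eq_mul_div, div_le_one hG]
    exact h1
  have h3 : 0 ≤ (d / selG z) * selS z d := by positivity
  calc |(ArithmeticFunction.moebius d : ℝ)| * (d / selG z) * selS z d
      = |(ArithmeticFunction.moebius d : ℝ)| * ((d / selG z) * selS z d) := by ring
    _ ≤ 1 * 1 := mul_le_mul hμ h2 h3 zero_le_one
    _ = 1 := one_mul 1

/-- Sum of the reciprocals of the numbers with given radical. -/
theorem sum_radical_le (z n : ℕ) (hn : n ∈ selD z) :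
    ∑ m ∈ (Icc 1 z).filter (fun m => m.primeFactors = n.primeFactors), (m : ℝ)⁻¹ ≤
      (Nat.totient n : ℝ)⁻¹ := by
  have hnm := mem_selD.mp hn
  have hn0 : 0 < n := hnm.1.1
  have hn0' : (n : ℝ) ≠ 0 := by positivity
  have hsq : Squarefree n := hnm.2.2
  let f : ℕ →* ℝ :=
    { toFun := fun m => (m : ℝ)⁻¹
      map_one' := by simp
      map_mul' := by intro a b; push_cast; rw [mul_inv] }
  have hf : ∀ {p : ℕ}, p.Prime → ‖f p‖ < 1 := by
    intro p hp
    have : (1 : ℝ) < p := by exact_mod_cast hp.one_lt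
    change ‖((p : ℝ))⁻¹‖ < 1
    rw [norm_inv, Real.norm_of_nonneg (by positivity)]
    exact inv_lt_one_of_one_lt₀ this
  have hE := EulerProduct.summable_and_hasSum_factoredNumbers_prod_filter_prime_geometric
    hf n.primeFactors
  have hprod : ∏ p ∈ n.primeFactors with p.Prime, (1 - f p)⁻¹ = n / Nat.totient n := by
    have h1 : (n.primeFactors.filter fun p => p.Prime) = n.primeFactors := by
      apply Finset.filter_true_of_mem
      intro p hp
      exact Nat.prime_of_mem_primeFactors hp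
    rw [h1]
    have h2 := Nat.totient_eq_mul_prod_factors n
    have h3 : (Nat.totient n : ℝ) = n * ∏ p ∈ n.primeFactors, (1 - (p : ℝ)⁻¹) := by
      have h2' := congrArg (fun q : ℚ => (q : ℝ)) h2
      push_cast at h2'
      exact h2'
    rw [h3, Finset.prod_inv_distrib]
    have h4 : ∏ p ∈ n.primeFactors, (1 - (p : ℝ)⁻¹) ≠ 0 := by
      apply Finset.prod_ne_zero_iff.mpr
      intro p hp
      have : (1 : ℝ) < p := by exact_mod_cast (Nat.prime_of_mem_primeFactors hp).one_lt
      have := inv_lt_one_of_one_lt₀ this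
      linarith
    change (∏ p ∈ n.primeFactors, (1 - (p : ℝ)⁻¹))⁻¹ = _
    field_simp
  rw [hprod] at hE
  have hbound : ∀ s : Finset (Nat.factoredNumbers n.primeFactors),
      ∑ m ∈ s, ((m : ℕ) : ℝ)⁻¹ ≤ n / Nat.totient n := by
    intro s
    exact sum_le_hasSum s (fun _ _ => by change (0 : ℝ) ≤ _⁻¹; positivity) hE.2
  -- write m = n * j
  set s0 := (Icc 1 z).filter (fun m => m.primeFactors = n.primeFactors) with hs0
  have hdvd : ∀ m ∈ s0, n ∣ m := by
    intro m hm
    simp only [hs0, mem_filter, mem_Icc] at hm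
    have h1 : ∏ p ∈ n.primeFactors, p = n := Nat.prod_primeFactors_of_squarefree hsq
    rw [← h1, ← hm.2]
    exact Nat.prod_primeFactors_dvd m
  have hmem : ∀ m ∈ s0, m / n ∈ Nat.factoredNumbers n.primeFactors := by
    intro m hm
    have hd := hdvd m hm
    simp only [hs0, mem_filter, mem_Icc] at hm
    rw [Nat.mem_factoredNumbers']
    intro p hp hpd
    rw [← hm.2, Nat.mem_primeFactors]
    exact ⟨hp, hpd.trans (Nat.div_dvd_of_dvd hd), by omega⟩
  have hsum : ∑ m ∈ s0, (m : ℝ)⁻¹ = (n : ℝ)⁻¹ * ∑ m ∈ s0.attach, (((m : ℕ) / n : ℕ) : ℝ)⁻¹ := by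
    rw [Finset.mul_sum, ← Finset.sum_attach]
    apply Finset.sum_congr rfl
    intro m _
    have hd := hdvd m.1 m.2
    rw [Nat.cast_div hd hn0', inv_div, mul_comm]
    field_simp
  have himg : ∑ m ∈ s0.attach, (((m : ℕ) / n : ℕ) : ℝ)⁻¹ =
      ∑ j ∈ s0.attach.image (fun m : {x // x ∈ s0} => (⟨(m : ℕ) / n, hmem m.1 m.2⟩ :
        Nat.factoredNumbers n.primeFactors)), ((j : ℕ) : ℝ)⁻¹ := by
    rw [Finset.sum_image]
    intro a _ b _ hab
    have hab' : (a : ℕ) / n = (b : ℕ) / n := congrArg Subtype.val hab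
    apply Subtype.ext
    have ha := Nat.div_mul_cancel (hdvd a.1 a.2)
    have hb := Nat.div_mul_cancel (hdvd b.1 b.2)
    rw [← ha, ← hb, hab']
  rw [hsum, himg]
  calc (n : ℝ)⁻¹ * _ ≤ (n : ℝ)⁻¹ * (n / Nat.totient n) :=
        mul_le_mul_of_nonneg_left (hbound _) (by positivity)
    _ = (Nat.totient n : ℝ)⁻¹ := by field_simp

/-- The odd harmonic sum is at most `G`. -/
theorem odd_harmonic_le (z : ℕ) : ∑ m ∈ (Icc 1 z).filter Odd, (m : ℝ)⁻¹ ≤ selG z := by
  have h1 : ∑ m ∈ (Icc 1 z).filter Odd, (m : ℝ)⁻¹ =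
      ∑ n ∈ selD z, ∑ m ∈ ((Icc 1 z).filter Odd).filter (fun m => ∏ p ∈ m.primeFactors, p = n),
        (m : ℝ)⁻¹ := by
    rw [Finset.sum_fiberwise_of_maps_to]
    intro m hm
    rw [mem_filter, mem_Icc] at hm
    have hdv : ∏ p ∈ m.primeFactors, p ∣ m := Nat.prod_primeFactors_dvd m
    rw [mem_selD]
    refine ⟨⟨Nat.pos_of_dvd_of_pos hdv (by omega), (Nat.le_of_dvd (by omega) hdv).trans hm.1.2⟩,
      hm.2.of_dvd_nat hdv, ?_⟩
    apply Finset.squarefree_prod_of_pairwise_isCoprime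
    · intro p hp q hq hpq
      have h1 := Nat.prime_of_mem_primeFactors (Finset.mem_coe.mp hp)
      have h2 := Nat.prime_of_mem_primeFactors (Finset.mem_coe.mp hq)
      exact Nat.coprime_iff_isRelPrime.mp ((Nat.coprime_primes h1 h2).mpr hpq)
    · intro p hp
      exact (Nat.prime_of_mem_primeFactors hp).squarefree
  rw [h1]
  apply Finset.sum_le_sum
  intro n hn
  refine le_trans ?_ (sum_radical_le z n hn)
  apply Finset.sum_le_sum_of_subset_of_nonneg
  · intro m hm
    simp only [mem_filter] at hm ⊢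
    refine ⟨hm.1.1, ?_⟩
    rw [← hm.2, Nat.primeFactors_prod]
    intro p hp
    exact Nat.prime_of_mem_primeFactors hp
  · intro m _ _
    positivity

theorem harmonic_le_two_odd (z : ℕ) :
    ∑ m ∈ Icc 1 z, (m : ℝ)⁻¹ ≤ 2 * ∑ m ∈ (Icc 1 z).filter Odd, (m : ℝ)⁻¹ := by
  have h1 : ∑ m ∈ Icc 1 z, (m : ℝ)⁻¹ = ∑ m ∈ (Icc 1 z).filter Odd, (m : ℝ)⁻¹ +
      ∑ m ∈ (Icc 1 z).filter (fun m => ¬ Odd m), (m : ℝ)⁻¹ :=
    (Finset.sum_filter_add_sum_filter_not _ _ _).symm
  have h2 : ∑ m ∈ (Icc 1 z).filter (fun m => ¬ Odd m), (m : ℝ)⁻¹ ≤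
      (1 / 2) * ∑ m ∈ Icc 1 z, (m : ℝ)⁻¹ := by
    rw [Finset.mul_sum]
    have h3 : ∑ m ∈ (Icc 1 z).filter (fun m => ¬ Odd m), (m : ℝ)⁻¹ =
        ∑ m ∈ ((Icc 1 z).filter (fun m => ¬ Odd m)).image (fun m : ℕ => m / 2),
          (1 / 2) * (m : ℝ)⁻¹ := by
      rw [Finset.sum_image]
      · apply Finset.sum_congr rfl
        intro m hm
        simp only [mem_filter, Nat.not_odd_iff_even] at hm
        obtain ⟨c, rfl⟩ := hm.2
        have : (c + c) / 2 = c := by omega
        rw [this]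
        push_cast
        rw [← two_mul, mul_inv]
        norm_num
      · intro a ha b hb hab
        simp only [coe_filter, Set.mem_ofPred_eq, Nat.not_odd_iff_even] at ha hb
        obtain ⟨c, rfl⟩ := ha.2
        obtain ⟨d, rfl⟩ := hb.2
        simp only at hab
        omega
    rw [h3]
    apply Finset.sum_le_sum_of_subset_of_nonneg
    · intro m hm
      simp only [mem_image, mem_filter, mem_Icc, Nat.not_odd_iff_even] at hm ⊢
      obtain ⟨a, ⟨⟨h1, h2⟩, ⟨c, rfl⟩⟩, rfl⟩ := hm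
      omega
    · intro m _ _
      positivity
  linarith

theorem log_le_two_selG (z : ℕ) (hz : 2 ≤ z) : log z ≤ 2 * selG z := by
  have h1 := log_add_one_le_harmonic z
  have h2 : ((harmonic z : ℚ) : ℝ) = ∑ m ∈ Icc 1 z, (m : ℝ)⁻¹ := by
    rw [harmonic_eq_sum_Icc]
    push_cast
    rfl
  have h3 := harmonic_le_two_odd z
  have h4 := odd_harmonic_le z
  have h5 : log (z : ℝ) ≤ log ((z : ℝ) + 1) :=
    Real.log_le_log (by positivity) (by linarith)
  push_cast at h1
  rw [h2] at h1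
  linarith

theorem selberg (T : Finset ℕ) (w : ℕ → ℝ) (hw : ∀ m ∈ T, 0 ≤ w m) (X E : ℝ) (hX : 0 ≤ X)
    (z : ℕ) (hz : 2 ≤ z)
    (h : ∀ d : ℕ, d ≤ z ^ 2 → Odd d → Squarefree d →
      |∑ m ∈ T.filter (fun m : ℕ => d ∣ m), w m - X / d| ≤ E) :
    ∑ m ∈ T.filter (fun m : ℕ => ∀ l ∈ (Icc (3 : ℕ) z).filter Nat.Prime, ¬ l ∣ m), w m ≤
      2 * X / log z + z ^ 2 * E := by
  have hz1 : 1 ≤ z := by omega
  have hG := selG_pos hz1
  have hE : 0 ≤ E := (abs_nonneg _).trans (h 1 (by nlinarith) odd_one squarefree_one)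
  -- step 1: the sifted sum is at most the weighted sum
  have hstep1 : ∑ m ∈ T.filter (fun m : ℕ => ∀ l ∈ (Icc (3 : ℕ) z).filter Nat.Prime, ¬ l ∣ m), w m ≤
      ∑ m ∈ T, w m * (∑ d ∈ selD z, if d ∣ m then selL z d else 0) ^ 2 := by
    rw [Finset.sum_filter]
    apply Finset.sum_le_sum
    intro m hm
    split_ifs with hs
    · have : ∑ d ∈ selD z, (if d ∣ m then selL z d else 0) = 1 := by
        rw [Finset.sum_eq_single_of_mem 1 (one_mem_selD hz1)]
        · simp [selL_one hz1]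
        · intro d hd hd1
          rw [if_neg]
          intro hdm
          have hdm' := mem_selD.mp hd
          obtain ⟨l, hl, hld⟩ := Nat.exists_prime_and_dvd hd1
          have hlodd : Odd l := hdm'.2.1.of_dvd_nat hld
          have hl3 : 3 ≤ l := by
            have := hl.two_le
            rcases hlodd with ⟨k, hk⟩
            omega
          have hlz : l ≤ z := (Nat.le_of_dvd (by omega) hld).trans hdm'.1.2
          exact hs l (by simp [hl3, hlz, hl]) (hld.trans hdm)
      rw [this]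
      simp
    · exact mul_nonneg (hw m hm) (sq_nonneg _)
  -- step 2: expand
  have hstep2 : ∑ m ∈ T, w m * (∑ d ∈ selD z, if d ∣ m then selL z d else 0) ^ 2 =
      ∑ d1 ∈ selD z, ∑ d2 ∈ selD z, selL z d1 * selL z d2 *
        ∑ m ∈ T.filter (fun m : ℕ => Nat.lcm d1 d2 ∣ m), w m := by
    have hA : ∀ m ∈ T, w m * (∑ d ∈ selD z, if d ∣ m then selL z d else 0) ^ 2 =
        ∑ d1 ∈ selD z, ∑ d2 ∈ selD z, if Nat.lcm d1 d2 ∣ m then
          selL z d1 * selL z d2 * w m else 0 := by
      intro m _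
      rw [sq, Finset.sum_mul_sum, Finset.mul_sum]
      apply Finset.sum_congr rfl
      intro d1 _
      rw [Finset.mul_sum]
      apply Finset.sum_congr rfl
      intro d2 _
      by_cases h1 : d1 ∣ m
      · by_cases h2 : d2 ∣ m
        · rw [if_pos h1, if_pos h2, if_pos (Nat.lcm_dvd h1 h2)]
          ring
        · rw [if_neg h2, if_neg (fun h => h2 ((Nat.dvd_lcm_right _ _).trans h))]
          ring
      · rw [if_neg h1, if_neg (fun h => h1 ((Nat.dvd_lcm_left _ _).trans h))]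
        ring
    rw [Finset.sum_congr rfl hA, Finset.sum_comm]
    apply Finset.sum_congr rfl
    intro d1 _
    rw [Finset.sum_comm]
    apply Finset.sum_congr rfl
    intro d2 _
    rw [Finset.mul_sum, Finset.sum_filter]
  -- step 3: each term
  have hstep3 : ∀ d1 ∈ selD z, ∀ d2 ∈ selD z, selL z d1 * selL z d2 *
        ∑ m ∈ T.filter (fun m : ℕ => Nat.lcm d1 d2 ∣ m), w m ≤
      X * (selL z d1 * selL z d2 / (Nat.lcm d1 d2 : ℝ)) + E := by
    intro d1 hd1 d2 hd2
    have m1 := mem_selD.mp hd1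
    have m2 := mem_selD.mp hd2
    have hle : Nat.lcm d1 d2 ≤ z ^ 2 := by
      calc Nat.lcm d1 d2 ≤ d1 * d2 := Nat.le_of_dvd (Nat.mul_pos m1.1.1 m2.1.1)
            (Nat.lcm_dvd_mul d1 d2)
        _ ≤ z * z := Nat.mul_le_mul m1.1.2 m2.1.2
        _ = z ^ 2 := (sq z).symm
    have hodd : Odd (Nat.lcm d1 d2) := (m1.2.1.mul m2.2.1).of_dvd_nat (Nat.lcm_dvd_mul d1 d2)
    have hsf : Squarefree (Nat.lcm d1 d2) := by
      rw [Nat.squarefree_iff_prime_squarefree]
      intro p hp hpp
      have hne : Nat.lcm d1 d2 ≠ 0 := Nat.lcm_ne_zero (by omega) (by omega)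
      have h2 : 2 ≤ (Nat.lcm d1 d2).factorization p := by
        rw [← hp.pow_dvd_iff_le_factorization hne, sq]
        exact hpp
      rw [Nat.factorization_lcm (by omega) (by omega), Finsupp.sup_apply] at h2
      have h3 := m1.2.2.natFactorization_le_one p
      have h4 := m2.2.2.natFactorization_le_one p
      have : max (d1.factorization p) (d2.factorization p) ≤ 1 := max_le h3 h4
      have h2' : 2 ≤ max (d1.factorization p) (d2.factorization p) := h2
      omega
    have hr := h (Nat.lcm d1 d2) hle hodd hsf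
    have hlam : |selL z d1 * selL z d2| ≤ 1 := by
      rw [abs_mul]
      calc |selL z d1| * |selL z d2| ≤ 1 * 1 :=
            mul_le_mul (abs_selL_le hz1 hd1) (abs_selL_le hz1 hd2) (abs_nonneg _) zero_le_one
        _ = 1 := one_mul 1
    have hdiff : selL z d1 * selL z d2 *
        (∑ m ∈ T.filter (fun m : ℕ => Nat.lcm d1 d2 ∣ m), w m - X / (Nat.lcm d1 d2 : ℝ)) ≤ E := by
      calc _ ≤ |selL z d1 * selL z d2 *
        (∑ m ∈ T.filter (fun m : ℕ => Nat.lcm d1 d2 ∣ m), w m - X / (Nat.lcm d1 d2 : ℝ))| :=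
            le_abs_self _
        _ = |selL z d1 * selL z d2| *
          |∑ m ∈ T.filter (fun m : ℕ => Nat.lcm d1 d2 ∣ m), w m - X / (Nat.lcm d1 d2 : ℝ)| :=
            abs_mul _ _
        _ ≤ 1 * E := mul_le_mul hlam hr (abs_nonneg _) zero_le_one
        _ = E := one_mul E
    have e1 : X * (selL z d1 * selL z d2 / (Nat.lcm d1 d2 : ℝ)) =
        selL z d1 * selL z d2 * (X / (Nat.lcm d1 d2 : ℝ)) := by ring
    rw [e1]
    linarith [mul_sub (selL z d1 * selL z d2)
      (∑ m ∈ T.filter (fun m : ℕ => Nat.lcm d1 d2 ∣ m), w m) (X / (Nat.lcm d1 d2 : ℝ))]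
  have hcard : ((selD z).card : ℝ) ≤ z := by
    have : (selD z).card ≤ (Icc 1 z).card := Finset.card_filter_le _ _
    rw [Nat.card_Icc] at this
    exact_mod_cast (by omega : (selD z).card ≤ z)
  have hlog : 0 < log z := Real.log_pos (by exact_mod_cast (by omega : 1 < z))
  calc ∑ m ∈ T.filter (fun m : ℕ => ∀ l ∈ (Icc (3 : ℕ) z).filter Nat.Prime, ¬ l ∣ m), w m
      ≤ ∑ d1 ∈ selD z, ∑ d2 ∈ selD z, selL z d1 * selL z d2 *
        ∑ m ∈ T.filter (fun m : ℕ => Nat.lcm d1 d2 ∣ m), w m := hstep1.trans hstep2.le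
    _ ≤ ∑ d1 ∈ selD z, ∑ d2 ∈ selD z,
        (X * (selL z d1 * selL z d2 / (Nat.lcm d1 d2 : ℝ)) + E) :=
        Finset.sum_le_sum (fun d1 hd1 => Finset.sum_le_sum (fun d2 hd2 => hstep3 d1 hd1 d2 hd2))
    _ = X * (selG z)⁻¹ + (selD z).card * ((selD z).card * E) := by
        rw [← quad_form hz1, Finset.mul_sum]
        simp only [Finset.sum_add_distrib, Finset.sum_const, nsmul_eq_mul, Finset.mul_sum]
    _ ≤ 2 * X / log z + z ^ 2 * E := by
        apply add_le_add
        · rw [mul_comm 2 X, mul_div_assoc]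
          apply mul_le_mul_of_nonneg_left _ hX
          rw [inv_le_comm₀ hG (by positivity), inv_div]
          have := log_le_two_selG z hz
          linarith
        · have : ((selD z).card : ℝ) * ((selD z).card * E) = ((selD z).card : ℝ) ^ 2 * E := by ring
          rw [this]
          apply mul_le_mul_of_nonneg_right _ hE
          exact pow_le_pow_left₀ (by positivity) hcard 2

end Pool.Agent.MP_2f88e5_nt
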