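import Mathlib

namespace Pool.Agent.MP_2f88e5_nt

open Finset Real

/-- Number of `k ≤ K` in one residue class given by a linear congruence. -/
theorem card_prog_le (q c a K : ℕ) (hc : Nat.Coprime c q) :
    ((Icc 1 K).filter (fun k => q ∣ c * k + a)).card ≤ K / q + 1 := by
  rw [← Finset.card_range (K / q + 1)]
  refine Finset.card_le_card_of_injOn (fun k => k / q) ?_ ?_
  · intro k hk
    simp only [Finset.coe_filter, Finset.mem_Icc, Set.mem_ofPred_eq] at hk
    simp only [Finset.coe_range, Set.mem_Iio]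
    exact Nat.lt_succ_of_le (Nat.div_le_div_right hk.1.2)
  · intro k hk k' hk' hkk
    simp only [Finset.coe_filter, Finset.mem_Icc, Set.mem_ofPred_eq] at hk hk'
    simp only at hkk
    have h1 : c * k ≡ c * k' [MOD q] := by
      have h2 : c * k + a ≡ c * k' + a [MOD q] :=
        ((Nat.modEq_zero_iff_dvd.2 hk.2).trans (Nat.modEq_zero_iff_dvd.2 hk'.2).symm)
      exact Nat.ModEq.add_right_cancel' a h2
    have h3 : k ≡ k' [MOD q] := Nat.ModEq.cancel_left_of_coprime
      (by rw [Nat.gcd_comm]; exact hc) h1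
    have h4 : k % q = k' % q := h3
    rw [← Nat.div_add_mod k q, ← Nat.div_add_mod k' q, hkk, h4]

/-- Valuation as a count of prime powers up to a given exponent. -/
theorem fact_eq_card (l n B : ℕ) (hl : l.Prime) (hn : n ≠ 0) (hB : n < l ^ (B + 1)) :
    n.factorization l = ((Icc 1 B).filter (fun i => l ^ i ∣ n)).card := by
  rw [Nat.factorization_eq_card_pow_dvd n hl]
  congr 1
  ext i
  simp only [Finset.mem_filter, Finset.mem_Ico, Finset.mem_Icc]
  constructor
  · rintro ⟨⟨h1, h2⟩, h3⟩
    refine ⟨⟨h1, ?_⟩, h3⟩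
    have h4 : l ^ i ≤ n := Nat.le_of_dvd (Nat.pos_of_ne_zero hn) h3
    have h5 : l ^ i < l ^ (B + 1) := lt_of_le_of_lt h4 hB
    have h6 := (Nat.pow_lt_pow_iff_right hl.one_lt).1 h5
    omega
  · rintro ⟨⟨h1, h2⟩, h3⟩
    refine ⟨⟨h1, ?_⟩, h3⟩
    have h4 : l ^ i ≤ n := Nat.le_of_dvd (Nat.pos_of_ne_zero hn) h3
    exact lt_of_lt_of_le (Nat.lt_pow_self hl.one_lt) h4

/-- Legendre type bound for a progression. -/
theorem sum_fact_le (l c a K M : ℕ) (hl : l.Prime) (hc : Nat.Coprime c l) (hK : K ≤ M)
    (hM : ∀ k ∈ Icc 1 K, c * k + a ≤ M) (hpos : ∀ k ∈ Icc 1 K, c * k + a ≠ 0) :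
    ∑ k ∈ Icc 1 K, (c * k + a).factorization l ≤
      (K.factorial).factorization l + Nat.log l M := by
  set B := Nat.log l M with hBdef
  have hB : M < l ^ (B + 1) := Nat.lt_pow_succ_log_self hl.one_lt M
  have h1 : ∑ k ∈ Icc 1 K, (c * k + a).factorization l =
      ∑ k ∈ Icc 1 K, ((Icc 1 B).filter (fun i => l ^ i ∣ c * k + a)).card := by
    refine Finset.sum_congr rfl fun k hk => ?_
    exact fact_eq_card l _ B hl (hpos k hk) (lt_of_le_of_lt (hM k hk) hB)
  rw [h1]
  have h2 : ∑ k ∈ Icc 1 K, ((Icc 1 B).filter (fun i => l ^ i ∣ c * k + a)).card =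
      ∑ i ∈ Icc 1 B, ((Icc 1 K).filter (fun k => l ^ i ∣ c * k + a)).card := by
    simp only [Finset.card_filter]
    rw [Finset.sum_comm]
  rw [h2]
  have h3 : ∑ i ∈ Icc 1 B, ((Icc 1 K).filter (fun k => l ^ i ∣ c * k + a)).card ≤
      ∑ i ∈ Icc 1 B, (K / l ^ i + 1) := by
    refine Finset.sum_le_sum fun i _ => ?_
    exact card_prog_le (l ^ i) c a K (Nat.Coprime.pow_right i hc)
  refine h3.trans ?_
  rw [Finset.sum_add_distrib]
  simp only [Finset.sum_const, smul_eq_mul, mul_one, Nat.card_Icc, Nat.add_sub_cancel]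
  have h4 : (K.factorial).factorization l = ∑ i ∈ Icc 1 B, K / l ^ i := by
    have h5 : Nat.log l K < B + 1 := Nat.lt_succ_of_le (Nat.log_mono_right hK)
    have h6 := Nat.factorization_factorial hl h5
    rw [h6]
    congr 1
  rw [h4]

theorem log_fact_eq (K : ℕ) : log (K.factorial : ℝ) = ∑ k ∈ Icc 1 K, log (k : ℝ) := by
  induction K with
  | zero => simp
  | succ n ih =>
    rw [Finset.sum_Icc_succ_top (by omega), Nat.factorial_succ, Nat.cast_mul,
      Real.log_mul (by positivity) (by exact_mod_cast Nat.factorial_ne_zero n), ih]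
    ring

theorem log_sum (p a : ℕ) (hp : p.Prime) (hp2 : 2 < p) (ha : Odd a) (ha1 : a < 2 * p)
    (hpa : ¬ p ∣ a) :
    (2 * p + 1) * log (2 * p) - (Nat.primeCounting (2 * p)) * (2 * log (2 * p + 1)) ≤
      ∑ k ∈ Icc 1 (2 * p + 1),
        ∑ l ∈ (2 * p * k + a).primeFactors.filter (fun l => 2 * p < l), log l := by
  set K := 2 * p + 1 with hK
  set M := 2 * p * K + a with hMdef
  have hMlt : M < (2 * p + 1) ^ 2 := by
    rw [hMdef, hK]; nlinarith
  have hM0 : M ≠ 0 := by
    have : 0 < a := ha.pos
    omega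
  have hpos : ∀ k ∈ Icc 1 K, 2 * p * k + a ≠ 0 := by
    intro k _
    have : 0 < a := ha.pos
    omega
  have hle : ∀ k ∈ Icc 1 K, 2 * p * k + a ≤ M := by
    intro k hk
    have := (Finset.mem_Icc.1 hk).2
    have h2 : 2 * p * k ≤ 2 * p * K := Nat.mul_le_mul_left _ this
    omega
  have hKM : K ≤ M := by
    have h1 : 1 ≤ 2 * p := by omega
    have : 1 * K ≤ 2 * p * K := Nat.mul_le_mul_right _ h1
    omega
  -- the small primes
  set P := (Finset.range (2 * p + 1)).filter (fun l => l.Prime) with hP
  set Q := P.filter (fun l => Nat.Coprime (2 * p) l) with hQ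
  -- pointwise decomposition
  have hdec : ∀ k ∈ Icc 1 K, log ((2 * p * k + a : ℕ) : ℝ) =
      ∑ l ∈ Q, ((2 * p * k + a).factorization l : ℝ) * log l +
        ∑ l ∈ (2 * p * k + a).primeFactors.filter (fun l => 2 * p < l), log l := by
    intro k hk
    set n := 2 * p * k + a with hn
    have hn0 : n ≠ 0 := hpos k hk
    have h1 : log (n : ℝ) = ∑ l ∈ n.primeFactors, (n.factorization l : ℝ) * log l := by
      rw [Real.log_nat_eq_sum_factorization]
      rfl
    rw [h1, ← Finset.sum_filter_add_sum_filter_not n.primeFactors (fun l => 2 * p < l), add_comm]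
    congr 1
    · -- small part
      have hsub : n.primeFactors.filter (fun l => ¬ 2 * p < l) ⊆ Q := by
        intro l hl
        rw [Finset.mem_filter, Nat.mem_primeFactors] at hl
        obtain ⟨⟨hlp, hln, _⟩, hl2⟩ := hl
        rw [hQ, hP, Finset.mem_filter, Finset.mem_filter, Finset.mem_range]
        refine ⟨⟨by omega, hlp⟩, ?_⟩
        rw [Nat.coprime_comm, hlp.coprime_iff_not_dvd]
        intro hdvd
        have h2 : l ∣ 2 * p * k := Dvd.dvd.mul_right hdvd k
        have h3 : l ∣ a := by
          rw [hn] at hln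
          exact (Nat.dvd_add_right h2).1 hln
        rcases (Nat.Prime.dvd_mul hlp).1 hdvd with h4 | h4
        · have h5 : l = 2 := (Nat.prime_dvd_prime_iff_eq hlp Nat.prime_two).1 h4
          rw [h5] at h3
          rcases ha with ⟨b, hb⟩
          omega
        · have h5 : l = p := (Nat.prime_dvd_prime_iff_eq hlp hp).1 h4
          rw [h5] at h3
          exact hpa h3
      refine Finset.sum_subset hsub ?_
      intro l hlQ hl
      rw [hQ, hP, Finset.mem_filter, Finset.mem_filter, Finset.mem_range] at hlQ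
      have h2 : l ∉ n.primeFactors := by
        intro h3
        apply hl
        rw [Finset.mem_filter]
        exact ⟨h3, by omega⟩
      have h3 : n.factorization l = 0 := by
        rw [← Finsupp.notMem_support_iff, Nat.support_factorization]
        exact h2
      rw [h3]; simp
    · -- large part
      refine Finset.sum_congr rfl fun l hl => ?_
      rw [Finset.mem_filter, Nat.mem_primeFactors] at hl
      obtain ⟨⟨hlp, hln, _⟩, hl2⟩ := hl
      have h2 : n.factorization l = 1 := by
        have h3 : 1 ≤ n.factorization l := by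
          rw [← Nat.Prime.dvd_iff_one_le_factorization hlp hn0]
          exact hln
        have h4 : n.factorization l < 2 := by
          by_contra h5
          push Not at h5
          have h6 : l ^ 2 ∣ n := (Nat.Prime.pow_dvd_iff_le_factorization hlp hn0).2 h5
          have h7 : l ^ 2 ≤ n := Nat.le_of_dvd (Nat.pos_of_ne_zero hn0) h6
          have h8 : n ≤ M := hle k hk
          have h9 : (2 * p + 1) ^ 2 ≤ l ^ 2 := Nat.pow_le_pow_left (by omega) 2
          omega
        omega
      rw [h2]; simp
  -- lower bound for the total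
  have hlow : ((2 * p + 1 : ℕ) : ℝ) * log (2 * p) + log (K.factorial : ℝ) ≤
      ∑ k ∈ Icc 1 K, log ((2 * p * k + a : ℕ) : ℝ) := by
    have h1 : log (K.factorial : ℝ) = ∑ k ∈ Icc 1 K, log (k : ℝ) := log_fact_eq K
    have h2 : ((2 * p + 1 : ℕ) : ℝ) * log (2 * p) = ∑ k ∈ Icc 1 K, log (2 * (p : ℝ)) := by
      rw [Finset.sum_const, Nat.card_Icc, nsmul_eq_mul]
      simp [hK]
    rw [h1, h2, ← Finset.sum_add_distrib]
    refine Finset.sum_le_sum fun k hk => ?_
    have hk1 := (Finset.mem_Icc.1 hk).1
    have hp0 : (0 : ℝ) < p := by exact_mod_cast hp.pos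
    have hk0 : (0 : ℝ) < k := by exact_mod_cast hk1
    rw [← Real.log_mul (by positivity) (by positivity)]
    apply Real.log_le_log (by positivity)
    push_cast
    have : (0 : ℝ) ≤ a := Nat.cast_nonneg a
    linarith
  -- upper bound for the small part
  have hup : ∑ k ∈ Icc 1 K, ∑ l ∈ Q, ((2 * p * k + a).factorization l : ℝ) * log l ≤
      log (K.factorial : ℝ) + (Nat.primeCounting (2 * p)) * (2 * log (2 * p + 1)) := by
    rw [Finset.sum_comm]
    have h1 : ∀ l ∈ Q, ∑ k ∈ Icc 1 K, ((2 * p * k + a).factorization l : ℝ) * log l ≤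
        ((K.factorial).factorization l : ℝ) * log l + 2 * log (2 * p + 1) := by
      intro l hl
      rw [hQ, hP, Finset.mem_filter, Finset.mem_filter, Finset.mem_range] at hl
      obtain ⟨⟨hl1, hlp⟩, hlc⟩ := hl
      rw [← Finset.sum_mul]
      have h2 := sum_fact_le l (2 * p) a K M hlp hlc hKM hle hpos
      have h3 : (∑ k ∈ Icc 1 K, ((2 * p * k + a).factorization l : ℝ)) ≤
          ((K.factorial).factorization l : ℝ) + (Nat.log l M : ℝ) := by
        exact_mod_cast h2
      have hlog : 0 ≤ log (l : ℝ) := Real.log_natCast_nonneg l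
      have h4 := mul_le_mul_of_nonneg_right h3 hlog
      refine h4.trans ?_
      rw [add_mul]
      have h5 : (Nat.log l M : ℝ) * log l ≤ 2 * log (2 * p + 1) := by
        have h6 : l ^ Nat.log l M ≤ M := Nat.pow_log_le_self l hM0
        have h7 : ((l : ℝ) ^ Nat.log l M) ≤ (2 * (p : ℝ) + 1) ^ 2 := by
          have h8 : l ^ Nat.log l M ≤ (2 * p + 1) ^ 2 := by omega
          exact_mod_cast h8
        have hl0 : (0 : ℝ) < l := by exact_mod_cast hlp.pos
        have h9 := Real.log_le_log (by positivity) h7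
        rw [Real.log_pow, Real.log_pow] at h9
        push_cast at h9
        exact h9
      linarith
    refine (Finset.sum_le_sum h1).trans ?_
    rw [Finset.sum_add_distrib]
    have h2 : ∑ l ∈ Q, ((K.factorial).factorization l : ℝ) * log l ≤ log (K.factorial : ℝ) := by
      have h3 : log (K.factorial : ℝ) =
          ∑ l ∈ (K.factorial).primeFactors, ((K.factorial).factorization l : ℝ) * log l := by
        rw [Real.log_nat_eq_sum_factorization]
        rfl
      rw [h3]
      have h4 : ∑ l ∈ Q, ((K.factorial).factorization l : ℝ) * log l =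
          ∑ l ∈ Q.filter (fun l => l ∈ (K.factorial).primeFactors),
            ((K.factorial).factorization l : ℝ) * log l := by
        symm
        apply Finset.sum_filter_of_ne
        intro l _ hl
        by_contra h5
        apply hl
        have h6 : (K.factorial).factorization l = 0 := by
          rw [← Finsupp.notMem_support_iff, Nat.support_factorization]
          exact h5
        rw [h6]; simp
      rw [h4]
      refine Finset.sum_le_sum_of_subset_of_nonneg ?_ ?_
      · intro l hl
        exact (Finset.mem_filter.1 hl).2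
      · intro l _ _
        exact mul_nonneg (Nat.cast_nonneg _) (Real.log_natCast_nonneg l)
    have h3 : ∑ _l ∈ Q, (2 * log (2 * (p : ℝ) + 1)) ≤
        (Nat.primeCounting (2 * p)) * (2 * log (2 * p + 1)) := by
      rw [Finset.sum_const, nsmul_eq_mul]
      apply mul_le_mul_of_nonneg_right
      · have h4 : Q.card ≤ P.card := Finset.card_filter_le _ _
        have h5 : P.card = Nat.primeCounting (2 * p) := by
          rw [hP, Nat.primeCounting, Nat.primeCounting', Nat.count_eq_card_filter_range]
        rw [← h5]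
        exact_mod_cast h4
      · have : (0 : ℝ) ≤ log (2 * (p : ℝ) + 1) := by
          apply Real.log_nonneg
          have : (0 : ℝ) ≤ p := Nat.cast_nonneg p
          linarith
        linarith
    linarith
  have htot : ∑ k ∈ Icc 1 K, log ((2 * p * k + a : ℕ) : ℝ) =
      ∑ k ∈ Icc 1 K, ∑ l ∈ Q, ((2 * p * k + a).factorization l : ℝ) * log l +
      ∑ k ∈ Icc 1 K, ∑ l ∈ (2 * p * k + a).primeFactors.filter (fun l => 2 * p < l), log (l : ℝ) := by
    rw [← Finset.sum_add_distrib]
    exact Finset.sum_congr rfl hdec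
  have hcast : ((2 * p + 1 : ℕ) : ℝ) = 2 * (p : ℝ) + 1 := by push_cast; ring
  rw [hcast] at hlow
  linarith

end Pool.Agent.MP_2f88e5_nt
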