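import Mathlib
import Pool.Agent.MP_2f88e5_nt.Hyp
import Pool.Agent.MP_2f88e5_nt.Selberg
import Pool.Agent.MP_2f88e5_nt.LogSum

/-!
Counting points of the modular hyperbola in boxes, with a divisibility condition.
-/

namespace Pool.Agent.MP_2f88e5_nt

open Finset Real

/-- The odd natural numbers in `(u, v]`. -/
noncomputable def odds (u v : ℝ) : Finset ℕ :=
  (range (⌊v⌋₊ + 1)).filter fun m : ℕ => u < m ∧ Odd m

theorem mem_odds {u v : ℝ} (hv : 0 ≤ v) {m : ℕ} : m ∈ odds u v ↔ u < m ∧ (m : ℝ) ≤ v ∧ Odd m := by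
  unfold odds
  rw [mem_filter, mem_range, Nat.lt_succ_iff, Nat.le_floor_iff hv]
  tauto

theorem odd_count {u v : ℝ} (hu : 0 ≤ u) (huv : u ≤ v) : ∃ t n : ℕ,
    (∀ s : ℕ, (u < s ∧ (s : ℝ) ≤ v ∧ Odd s) ↔ ∃ j < n, s = 2 * t + 1 + 2 * j) ∧
    |(n : ℝ) - (v - u) / 2| ≤ 1 := by
  have hv : 0 ≤ v := hu.trans huv
  have h1 : ⌊(u + 1) / 2⌋₊ ≤ ⌊(v + 1) / 2⌋₊ := Nat.floor_mono (by linarith)
  refine ⟨⌊(u + 1) / 2⌋₊, ⌊(v + 1) / 2⌋₊ - ⌊(u + 1) / 2⌋₊, ?_, ?_⟩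
  · intro s
    constructor
    · rintro ⟨h2, h3, r, hr⟩
      subst hr
      push_cast at h2 h3
      have h4 : ⌊(u + 1) / 2⌋₊ ≤ r := by
        have : ⌊(u + 1) / 2⌋₊ < r + 1 := by
          rw [Nat.floor_lt (by positivity)]
          push_cast
          linarith
        omega
      have h5 : r + 1 ≤ ⌊(v + 1) / 2⌋₊ := by
        apply Nat.le_floor
        push_cast
        linarith
      exact ⟨r - ⌊(u + 1) / 2⌋₊, by omega, by omega⟩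
    · rintro ⟨j, hj, rfl⟩
      have h4 : (u + 1) / 2 < ⌊(u + 1) / 2⌋₊ + 1 := Nat.lt_floor_add_one _
      have h5 : ((⌊(v + 1) / 2⌋₊ : ℕ) : ℝ) ≤ (v + 1) / 2 := Nat.floor_le (by positivity)
      have h6 : ⌊(u + 1) / 2⌋₊ + j + 1 ≤ ⌊(v + 1) / 2⌋₊ := by omega
      have h7 : ((⌊(u + 1) / 2⌋₊ + j + 1 : ℕ) : ℝ) ≤ ⌊(v + 1) / 2⌋₊ := by exact_mod_cast h6
      push_cast at h7 ⊢
      refine ⟨?_, ?_, ?_⟩
      · have : (0 : ℝ) ≤ j := by positivity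
        linarith
      · linarith
      · exact ⟨⌊(u + 1) / 2⌋₊ + j, by ring⟩
  · rw [Nat.cast_sub h1]
    have h4 : (u + 1) / 2 < ⌊(u + 1) / 2⌋₊ + 1 := Nat.lt_floor_add_one _
    have h5 : ((⌊(v + 1) / 2⌋₊ : ℕ) : ℝ) ≤ (v + 1) / 2 := Nat.floor_le (by positivity)
    have h6 : (v + 1) / 2 < ⌊(v + 1) / 2⌋₊ + 1 := Nat.lt_floor_add_one _
    have h7 : ((⌊(u + 1) / 2⌋₊ : ℕ) : ℝ) ≤ (u + 1) / 2 := Nat.floor_le (by positivity)
    rw [abs_le]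
    constructor <;> linarith

/-- number of odd `s` in `(S, S']` with `m s = a` mod `p`. -/
noncomputable def wt (p a : ℕ) (S S' : ℝ) (m : ℕ) : ℝ :=
  (((odds S S').filter fun s : ℕ => ((m : ZMod p) * (s : ZMod p) = (a : ZMod p))).card : ℝ)

theorem sum_wt (p : ℕ) [Fact p.Prime] (a d : ℕ) (hd : Odd d) {U V S S' : ℝ} (hU : 0 ≤ U)
    (hUV : U ≤ V) (hS : 0 ≤ S) (hSS : S ≤ S') : ∃ M n : ℕ, ∃ α γ : ZMod p,
      |(M : ℝ) - (V - U) / (2 * d)| ≤ 1 ∧ |(n : ℝ) - (S' - S) / 2| ≤ 1 ∧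
      ∑ m ∈ (odds U V).filter (fun m : ℕ => d ∣ m), wt p a S S' m =
        ((((range M) ×ˢ (range n)).filter fun ij : ℕ × ℕ =>
        (α + (2 * d : ZMod p) * (ij.1 : ZMod p)) * (γ + 2 * (ij.2 : ZMod p)) = (a : ZMod p)).card : ℝ) := by
  have hd0 : 0 < d := hd.pos
  have hd0' : (0 : ℝ) < d := by exact_mod_cast hd0
  obtain ⟨t, M, hM, hM'⟩ := odd_count (u := U / d) (v := V / d) (by positivity)
    (by gcongr)
  obtain ⟨t', n, hn, hn'⟩ := odd_count (u := S) (v := S') hS hSS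
  refine ⟨M, n, (d : ZMod p) * (2 * t + 1 : ℕ), ((2 * t' + 1 : ℕ) : ZMod p), ?_, hn', ?_⟩
  · convert hM' using 2
    field_simp
  have hV : 0 ≤ V := hU.trans hUV
  have hS' : 0 ≤ S' := hS.trans hSS
  unfold wt
  rw [← Nat.cast_sum, ← card_sigma]
  congr 1
  symm
  apply Finset.card_bij (fun ij _ => (⟨d * (2 * t + 1 + 2 * ij.1), 2 * t' + 1 + 2 * ij.2⟩ : Σ _ : ℕ, ℕ))
  · rintro ⟨i, j⟩ hij
    rw [mem_filter, mem_product, mem_range, mem_range] at hij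
    obtain ⟨⟨hi, hj⟩, h⟩ := hij
    have h1 := (hM (2 * t + 1 + 2 * i)).mpr ⟨i, hi, rfl⟩
    have h2 := (hn (2 * t' + 1 + 2 * j)).mpr ⟨j, hj, rfl⟩
    rw [mem_sigma, mem_filter, mem_filter, mem_odds hV, mem_odds hS']
    refine ⟨⟨⟨?_, ?_, ?_⟩, dvd_mul_right _ _⟩, ⟨h2.1, h2.2.1, h2.2.2⟩, ?_⟩
    · have := h1.1
      rw [div_lt_iff₀ hd0'] at this
      push_cast at this ⊢
      linarith
    · have := h1.2.1
      rw [le_div_iff₀ hd0'] at this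
      push_cast at this ⊢
      linarith
    · exact hd.mul h1.2.2
    · rw [← h]
      push_cast
      ring
  · rintro ⟨i, j⟩ _ ⟨i', j'⟩ _ h
    simp only [Sigma.mk.injEq, heq_eq_eq] at h
    obtain ⟨h1, h2⟩ := h
    have h3 := Nat.eq_of_mul_eq_mul_left hd0 h1
    have h4 : i = i' := by omega
    have h5 : j = j' := by omega
    rw [h4, h5]
  · rintro ⟨m, s⟩ h
    rw [mem_sigma, mem_filter, mem_filter, mem_odds hV, mem_odds hS'] at h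
    obtain ⟨⟨⟨h1, h2, h3⟩, b, hb⟩, ⟨h4, h5, h6⟩, h7⟩ := h
    simp only at hb h1 h2 h3 h4 h5 h6 h7
    subst hb
    have hb : Odd b := by
      rw [Nat.odd_mul] at h3
      exact h3.2
    obtain ⟨i, hi, hi'⟩ := (hM b).mp ⟨by
      rw [div_lt_iff₀ hd0']; push_cast at h1; linarith, by
      rw [le_div_iff₀ hd0']; push_cast at h2; linarith, hb⟩
    obtain ⟨j, hj, hj'⟩ := (hn s).mp ⟨h4, h5, h6⟩
    refine ⟨(i, j), ?_, ?_⟩
    · rw [mem_filter, mem_product, mem_range, mem_range]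
      refine ⟨⟨hi, hj⟩, ?_⟩
      rw [hi', hj'] at h7
      rw [← h7]
      push_cast
      ring
    · simp only [hi', hj']

end Pool.Agent.MP_2f88e5_nt
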