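import Mathlib
import Pool.Agent.MP_2f88e5_nt.Box

namespace Pool.Agent.MP_2f88e5_nt

open Finset Real

theorem box_count (p : ℕ) [Fact p.Prime] (hp2 : 2 < p) (a d : ℕ) (ha : ¬ p ∣ a) (hd : Odd d)
    (hdp : ¬ p ∣ d) {U V S S' : ℝ} (hU : 0 ≤ U)
    (hUV : U ≤ V) (hS : 0 ≤ S) (hSS : S ≤ S') :
    |∑ m ∈ (odds U V).filter (fun m : ℕ => d ∣ m), wt p a S S' m -
        ((V - U) / 2 * ((S' - S) / 2) / p) / d| ≤
      ((V - U) / 2 + 1) * ((S' - S) / 2 + 1) / p ^ 2 +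
      ((V - U) / 2 + 1 + ((S' - S) / 2 + 1)) * (2 + log p) / p +
      2 * (p : ℝ) ^ (3 / 4 : ℝ) * (1 + log p) ^ 2 := by
  obtain ⟨M, n, α, γ, hM, hn, hsum⟩ := sum_wt p a d hd hU hUV hS hSS
  have hp : p.Prime := Fact.out
  have hp0 : (0 : ℝ) < p := by exact_mod_cast hp.pos
  have h2 : (2 : ZMod p) ≠ 0 := by
    intro h
    have : ((2 : ℕ) : ZMod p) = 0 := by exact_mod_cast h
    rw [ZMod.natCast_eq_zero_iff] at this
    exact absurd (Nat.le_of_dvd (by norm_num) this) (by omega)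
  have hd' : (d : ZMod p) ≠ 0 := by
    rw [Ne, ZMod.natCast_eq_zero_iff]; exact hdp
  have ha' : (a : ZMod p) ≠ 0 := by
    rw [Ne, ZMod.natCast_eq_zero_iff]; exact ha
  have key := hyperbola p α (2 * d) γ 2 a (mul_ne_zero h2 hd') h2 ha' M n
  rw [hsum]
  have hd1 : (1 : ℝ) ≤ d := by
    have := hd.pos
    exact_mod_cast this
  set N : ℝ := ((((range M) ×ˢ (range n)).filter fun ij : ℕ × ℕ =>
        (α + (2 * d : ZMod p) * (ij.1 : ZMod p)) * (γ + 2 * (ij.2 : ZMod p)) = (a : ZMod p)).card : ℝ)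
    with hN
  set A : ℝ := (V - U) / 2 with hA
  set B : ℝ := (S' - S) / 2 with hB
  have hA0 : 0 ≤ A := by rw [hA]; linarith
  have hB0 : 0 ≤ B := by rw [hB]; linarith
  have hM' : |(M : ℝ) - A / d| ≤ 1 := by
    convert hM using 2
    rw [hA]
    field_simp
  have hAd : A / d ≤ A := div_le_self hA0 hd1
  have hAd0 : 0 ≤ A / d := by positivity
  have hM1 : (M : ℝ) ≤ A + 1 := by
    have := (abs_le.mp hM').2
    linarith
  have hn1 : (n : ℝ) ≤ B + 1 := by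
    have := (abs_le.mp hn).2
    linarith
  have hM0 : (0 : ℝ) ≤ M := by positivity
  have hn0 : (0 : ℝ) ≤ n := by positivity
  have hlog : 0 ≤ log p := Real.log_natCast_nonneg p
  -- difference of the main terms
  have hdiff : |(M : ℝ) * n / p - (A * B / p) / d| ≤ (A + 1 + (B + 1)) * 1 / p := by
    have e : (M : ℝ) * n / p - (A * B / p) / d =
        (((M : ℝ) - A / d) * n + (A / d) * ((n : ℝ) - B)) / p := by
      field_simp
      ring
    rw [e, abs_div, abs_of_pos hp0]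
    apply div_le_div_of_nonneg_right _ hp0.le
    calc |((M : ℝ) - A / d) * n + (A / d) * ((n : ℝ) - B)|
        ≤ |((M : ℝ) - A / d) * n| + |(A / d) * ((n : ℝ) - B)| := abs_add_le _ _
      _ = |(M : ℝ) - A / d| * n + (A / d) * |(n : ℝ) - B| := by
          rw [abs_mul, abs_mul, abs_of_nonneg hn0, abs_of_nonneg hAd0]
      _ ≤ 1 * n + A * 1 := by gcongr
      _ ≤ (A + 1 + (B + 1)) * 1 := by linarith
  have e1 : (M : ℝ) * n / p ^ 2 ≤ (A + 1) * (B + 1) / p ^ 2 := by gcongr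
  have e2 : ((M : ℝ) + n) * (1 + log p) / p ≤ (A + 1 + (B + 1)) * (1 + log p) / p := by gcongr
  calc |N - (A * B / p) / d| ≤ |N - M * n / p| + |(M : ℝ) * n / p - (A * B / p) / d| :=
        abs_sub_le _ _ _
    _ ≤ (M * n / p ^ 2 + (M + n) * (1 + log p) / p + 2 * (p : ℝ) ^ (3 / 4 : ℝ) * (1 + log p) ^ 2)
        + (A + 1 + (B + 1)) * 1 / p := add_le_add key hdiff
    _ ≤ ((A + 1) * (B + 1) / p ^ 2 + (A + 1 + (B + 1)) * (1 + log p) / p +
        2 * (p : ℝ) ^ (3 / 4 : ℝ) * (1 + log p) ^ 2) + (A + 1 + (B + 1)) * 1 / p := by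
        gcongr
    _ = _ := by ring

/-- the number of pairs `(l, s)` in a box, `l` free of odd prime factors `≤ z`. -/
theorem box_sifted (p : ℕ) [Fact p.Prime] (hp2 : 2 < p) (a : ℕ) (ha : ¬ p ∣ a) {U V S S' : ℝ}
    (hU : 0 ≤ U) (hUV : U ≤ V) (hS : 0 ≤ S) (hSS : S ≤ S') (z : ℕ) (hz : 2 ≤ z) (hzp : z ^ 2 < p) :
    ∑ m ∈ (odds U V).filter (fun m : ℕ => ∀ l ∈ (Icc (3 : ℕ) z).filter Nat.Prime, ¬ l ∣ m),
      wt p a S S' m ≤ 2 * ((V - U) / 2 * ((S' - S) / 2) / p) / log z + z ^ 2 *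
      (((V - U) / 2 + 1) * ((S' - S) / 2 + 1) / p ^ 2 +
      ((V - U) / 2 + 1 + ((S' - S) / 2 + 1)) * (2 + log p) / p +
      2 * (p : ℝ) ^ (3 / 4 : ℝ) * (1 + log p) ^ 2) := by
  apply selberg (odds U V) (wt p a S S') (fun m _ => by unfold wt; positivity) _ _ _ z hz
  · intro d hd hodd _
    apply box_count p hp2 a d ha hodd _ hU hUV hS hSS
    intro hpd
    have := Nat.le_of_dvd hodd.pos hpd
    omega
  · have : 0 ≤ (V - U) / 2 := by linarith
    have : 0 ≤ (S' - S) / 2 := by linarith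
    positivity

end Pool.Agent.MP_2f88e5_nt
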