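import Mathlib
import Pool.Agent.MP_2f88e5_nt.Box2

namespace Pool.Agent.MP_2f88e5_nt

open Finset Real

/-- `p` is large: `y = p ^ (1/100)`, `L = log p`. -/
structure Large (p : ℕ) (y L : ℝ) : Prop where
  hy : y ^ 100 = p
  hL : L = log p
  h1 : 100000 ≤ L
  h2 : 1000000 * (1 + L) ^ 3 ≤ y

theorem exists_large : ∃ p₀ : ℕ, ∀ p ≥ p₀, Large p ((p : ℝ) ^ (1 / 100 : ℝ)) (log p) := by
  have h1 : ∀ᶠ x : ℝ in Filter.atTop, 100000 ≤ log x :=
    Real.tendsto_log_atTop.eventually_ge_atTop _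
  have h2 : ∀ᶠ x : ℝ in Filter.atTop, 1000000 * (1 + log x) ^ 3 ≤ x ^ (1 / 100 : ℝ) := by
    have h3 : (fun x : ℝ => (log x) ^ (3 : ℝ)) =o[Filter.atTop] fun x : ℝ => x ^ (1 / 100 : ℝ) :=
      isLittleO_log_rpow_rpow_atTop 3 (by norm_num)
    have h4 := h3.bound (c := 1 / 8000000) (by norm_num)
    filter_upwards [h4, h1, Filter.eventually_ge_atTop (0 : ℝ)] with x hx hx1 hx0
    have h5 : 0 ≤ log x := by linarith
    rw [Real.norm_of_nonneg (by positivity), Real.norm_of_nonneg (by positivity)] at hx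
    have h6 : (log x) ^ (3 : ℝ) = (log x) ^ (3 : ℕ) := by
      rw [← Real.rpow_natCast]; norm_num
    rw [h6] at hx
    have h7 : (1 + log x) ^ 3 ≤ (2 * log x) ^ 3 := by
      apply pow_le_pow_left₀ (by linarith)
      linarith
    have h8 : (2 * log x) ^ 3 = 8 * (log x) ^ 3 := by ring
    linarith
  obtain ⟨X, hX⟩ := Filter.eventually_atTop.mp (h1.and h2)
  refine ⟨⌈X⌉₊, fun p hp => ?_⟩
  have h3 : X ≤ (p : ℝ) := (Nat.le_ceil X).trans (by exact_mod_cast hp)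
  obtain ⟨h4, h5⟩ := hX p h3
  refine ⟨?_, rfl, h4, h5⟩
  rw [← Real.rpow_natCast, ← Real.rpow_mul (by positivity)]
  norm_num

variable {p : ℕ} {y L : ℝ}

theorem Large.y_ge (h : Large p y L) : 1000000 ≤ y := by
  have h1 := h.h1
  have h2 := h.h2
  have h3 : (1 : ℝ) ≤ (1 + L) ^ 3 := by
    apply one_le_pow₀
    linarith
  linarith

theorem Large.log_z (h : Large p y L) : 0.119 * L ≤ log (⌊y ^ 12⌋₊ : ℝ) := by
  have hy := h.y_ge
  have hy0 : (0 : ℝ) < y := by linarith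
  have h1 : y ^ 12 < ⌊y ^ 12⌋₊ + 1 := Nat.lt_floor_add_one _
  have h2 : (2 : ℝ) ≤ y ^ 12 := by
    have : (1000000 : ℝ) ^ 12 ≤ y ^ 12 := pow_le_pow_left₀ (by norm_num) hy 12
    norm_num at this ⊢
    linarith
  have h3 : y ^ 12 / 2 ≤ (⌊y ^ 12⌋₊ : ℝ) := by linarith
  have h4 : log (y ^ 12 / 2) ≤ log (⌊y ^ 12⌋₊ : ℝ) := Real.log_le_log (by positivity) h3
  rw [Real.log_div (by positivity) (by norm_num), Real.log_pow] at h4
  have h5 : L = 100 * log y := by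
    rw [h.hL, ← h.hy, Real.log_pow]
    norm_num
  have h6 := Real.log_two_lt_d9
  have h7 := h.h1
  push_cast at h4
  norm_num at h4 ⊢
  linarith

/-- bound for one box -/
theorem box_bound [Fact p.Prime] (h : Large p y L) (a : ℕ) (ha : ¬ p ∣ a) {S : ℝ}
    (hS : y ^ 90 / 10 ≤ S) (hS2 : S ≤ 2 * p) {z : ℕ} (hz : z = ⌊y ^ 12⌋₊) :
    ∑ m ∈ (odds (2 * p) ((2 * p + 1) ^ 2 / S)).filter
      (fun m : ℕ => ∀ l ∈ (Icc (3 : ℕ) z).filter Nat.Prime, ¬ l ∣ m),
      wt p a S (1.01 * S) m ≤ 0.1685 * p / L := by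
  have hy := h.y_ge
  have hy1 : (1 : ℝ) ≤ y := by linarith
  have hy0 : (0 : ℝ) < y := by linarith
  have hL := h.h1
  have hL0 : 0 < L := by linarith
  have hp0 : (0 : ℝ) < p := by rw [← h.hy]; positivity
  have hS0 : 0 < S := lt_of_lt_of_le (by positivity) hS
  have hbig : ∀ n : ℕ, 1 ≤ n → 1000000 ≤ y ^ n := by
    intro n hn
    calc (1000000 : ℝ) ≤ y := hy
      _ = y ^ 1 := (pow_one y).symm
      _ ≤ y ^ n := pow_le_pow_right₀ hy1 hn
  have hp1 : (1000000 : ℝ) ≤ p := by rw [← h.hy]; exact hbig 100 (by norm_num)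
  have hp2 : 2 < p := by
    have : (2 : ℝ) < p := by linarith
    exact_mod_cast this
  have hzle : (z : ℝ) ≤ y ^ 12 := by rw [hz]; exact Nat.floor_le (by positivity)
  have hz2 : 2 ≤ z := by
    rw [hz]
    exact Nat.le_floor (by push_cast; linarith [hbig 12 (by norm_num)])
  have hz24 : (z : ℝ) ^ 2 ≤ y ^ 24 := by
    calc (z : ℝ) ^ 2 ≤ (y ^ 12) ^ 2 := pow_le_pow_left₀ (by positivity) hzle 2
      _ = y ^ 24 := by ring
  have hzp : z ^ 2 < p := by
    have : (z : ℝ) ^ 2 < p := by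
      rw [← h.hy]
      calc (z : ℝ) ^ 2 ≤ y ^ 24 := hz24
        _ < y ^ 100 := pow_lt_pow_right₀ (by linarith) (by norm_num)
    exact_mod_cast this
  set V : ℝ := (2 * p + 1) ^ 2 / S with hV
  have hVS : V * S = (2 * p + 1) ^ 2 := by rw [hV]; field_simp
  have hsq : ((2 : ℝ) * p + 1) ^ 2 ≤ 4.0001 * p ^ 2 := by nlinarith
  have hUV : (2 : ℝ) * p ≤ V := by
    rw [hV, le_div_iff₀ hS0]
    nlinarith
  have hSS : S ≤ 1.01 * S := by linarith
  have key := box_sifted p hp2 a ha (U := 2 * p) (V := V) (S := S) (S' := 1.01 * S)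
    (by positivity) hUV hS0.le hSS z hz2 hzp
  refine key.trans ?_
  have hlz := h.log_z
  rw [← hz] at hlz
  have hlz0 : 0 < log z := lt_of_lt_of_le (by positivity) hlz
  -- main term
  have hX : (V - 2 * p) / 2 * ((1.01 * S - S) / 2) / p ≤ 0.010001 * p := by
    rw [div_le_iff₀ hp0]
    have e : (V - 2 * p) / 2 * ((1.01 * S - S) / 2) = 0.0025 * (V * S) - 0.005 * p * S := by ring
    rw [e, hVS]
    have : 0 ≤ 0.005 * p * S := by positivity
    nlinarith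
  have hX0 : 0 ≤ (V - 2 * p) / 2 * ((1.01 * S - S) / 2) / p := by
    have : 0 ≤ (V - 2 * p) / 2 := by linarith
    have : 0 ≤ (1.01 * S - S) / 2 := by linarith
    positivity
  have hmain : 2 * ((V - 2 * p) / 2 * ((1.01 * S - S) / 2) / p) / log z ≤ 0.1682 * p / L := by
    calc 2 * ((V - 2 * p) / 2 * ((1.01 * S - S) / 2) / p) / log z
        ≤ 2 * (0.010001 * p) / (0.119 * L) := by gcongr
      _ ≤ 0.1682 * p / L := by
        rw [div_le_div_iff₀ (by positivity) hL0]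
        have : 0 ≤ (p : ℝ) * L := by positivity
        nlinarith
  -- error term
  have hVle : (V - 2 * p) / 2 + 1 ≤ 21 * y ^ 110 := by
    have h1 : V ≤ 40.001 * y ^ 110 := by
      rw [hV, div_le_iff₀ hS0]
      calc ((2 : ℝ) * p + 1) ^ 2 ≤ 4.0001 * p ^ 2 := hsq
        _ = 4.0001 * (y ^ 100) ^ 2 := by rw [h.hy]
        _ = 40.001 * y ^ 110 * (y ^ 90 / 10) := by ring
        _ ≤ 40.001 * y ^ 110 * S := by gcongr
    have h2 := hbig 110 (by norm_num)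
    linarith
  have hSle : (1.01 * S - S) / 2 + 1 ≤ p := by linarith
  have hlogp : log (p : ℝ) = L := h.hL.symm
  have hp34 : (p : ℝ) ^ (3 / 4 : ℝ) = y ^ 75 := by
    rw [← h.hy, ← Real.rpow_natCast, ← Real.rpow_mul hy0.le, ← Real.rpow_natCast]
    norm_num
  have hA1 : 0 ≤ (V - 2 * p) / 2 + 1 := by linarith
  have hB1 : 0 ≤ (1.01 * S - S) / 2 + 1 := by linarith
  have herr : ((V - 2 * p) / 2 + 1) * ((1.01 * S - S) / 2 + 1) / p ^ 2 +
      ((V - 2 * p) / 2 + 1 + ((1.01 * S - S) / 2 + 1)) * (2 + log p) / p +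
      2 * (p : ℝ) ^ (3 / 4 : ℝ) * (1 + log p) ^ 2 ≤ 3 * y ^ 75 * (1 + L) ^ 2 := by
    rw [hlogp, hp34]
    have t1 : ((V - 2 * p) / 2 + 1) * ((1.01 * S - S) / 2 + 1) / p ^ 2 ≤ 21 * y ^ 10 := by
      calc ((V - 2 * p) / 2 + 1) * ((1.01 * S - S) / 2 + 1) / p ^ 2
          ≤ (21 * y ^ 110) * p / p ^ 2 := by gcongr
        _ = 21 * y ^ 10 * (y ^ 100 / p) := by field_simp
        _ = 21 * y ^ 10 := by rw [h.hy]; field_simp
    have t2 : ((V - 2 * p) / 2 + 1 + ((1.01 * S - S) / 2 + 1)) * (2 + L) / p ≤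
        22 * y ^ 10 * (2 + L) := by
      have h3 : (p : ℝ) ≤ y ^ 110 := by
        rw [← h.hy]; exact pow_le_pow_right₀ hy1 (by norm_num)
      calc ((V - 2 * p) / 2 + 1 + ((1.01 * S - S) / 2 + 1)) * (2 + L) / p
          ≤ (21 * y ^ 110 + y ^ 110) * (2 + L) / p := by gcongr; linarith
        _ = 22 * y ^ 10 * (2 + L) * (y ^ 100 / p) := by field_simp; ring
        _ = 22 * y ^ 10 * (2 + L) := by rw [h.hy]; field_simp
    have t3 : 21 * y ^ 10 + 22 * y ^ 10 * (2 + L) ≤ y ^ 75 * (1 + L) ^ 2 := by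
      have h4 : (100 : ℝ) ≤ y ^ 65 := by linarith [hbig 65 (by norm_num)]
      have h5 : y ^ 75 = y ^ 10 * y ^ 65 := by ring
      have h6 : 21 + 22 * (2 + L) ≤ 100 * (1 + L) ^ 2 := by nlinarith
      have h7 : (0 : ℝ) ≤ (1 + L) ^ 2 := by positivity
      calc 21 * y ^ 10 + 22 * y ^ 10 * (2 + L) = y ^ 10 * (21 + 22 * (2 + L)) := by ring
        _ ≤ y ^ 10 * (100 * (1 + L) ^ 2) := by gcongr
        _ ≤ y ^ 10 * (y ^ 65 * (1 + L) ^ 2) := by gcongr
        _ = y ^ 75 * (1 + L) ^ 2 := by rw [h5]; ring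
    linarith
  have herr2 : (z : ℝ) ^ 2 * (((V - 2 * p) / 2 + 1) * ((1.01 * S - S) / 2 + 1) / p ^ 2 +
      ((V - 2 * p) / 2 + 1 + ((1.01 * S - S) / 2 + 1)) * (2 + log p) / p +
      2 * (p : ℝ) ^ (3 / 4 : ℝ) * (1 + log p) ^ 2) ≤ 0.0001 * p / L := by
    calc _ ≤ y ^ 24 * (3 * y ^ 75 * (1 + L) ^ 2) := by
          apply mul_le_mul hz24 herr _ (by positivity)
          have : 0 ≤ log (p : ℝ) := by rw [hlogp]; exact hL0.le
          positivity
      _ = 3 * y ^ 99 * (1 + L) ^ 2 := by ring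
      _ ≤ 0.0001 * p / L := by
        rw [le_div_iff₀ hL0, ← h.hy]
        have h8 := h.h2
        have h9 : 3 * (1 + L) ^ 2 * L ≤ 0.0001 * y := by
          have : (1 + L) ^ 2 * L ≤ (1 + L) ^ 3 := by
            have : 0 ≤ (1 + L) ^ 2 := by positivity
            nlinarith
          have h10 : 0 ≤ (1 + L) ^ 3 := by positivity
          nlinarith
        calc 3 * y ^ 99 * (1 + L) ^ 2 * L = y ^ 99 * (3 * (1 + L) ^ 2 * L) := by ring
          _ ≤ y ^ 99 * (0.0001 * y) := by gcongr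
          _ = 0.0001 * y ^ 100 := by ring
  have hfin : 0.1682 * (p : ℝ) / L + 0.0001 * p / L ≤ 0.1685 * p / L := by
    rw [← add_div]
    apply div_le_div_of_nonneg_right _ hL0.le
    linarith
  linarith

end Pool.Agent.MP_2f88e5_nt
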