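import Mathlib
import Pool.Agent.MP_2f88e5_nt.Box3

namespace Pool.Agent.MP_2f88e5_nt

open Finset Real

variable {p : ℕ} {y L : ℝ}

theorem log_101 : (0.0099 : ℝ) ≤ log 1.01 := by
  have h := Real.one_sub_inv_le_log_of_pos (x := 1.01) (by norm_num)
  have : (0.0099 : ℝ) ≤ 1 - (1.01 : ℝ)⁻¹ := by norm_num
  linarith

theorem Large.L_eq (h : Large p y L) : L = 100 * log y := by
  rw [h.hL, ← h.hy, Real.log_pow]
  norm_num

theorem exists_box (h : Large p y L) {s : ℝ} (hs : y ^ 90 / 10 < s) (hs2 : s ≤ 2 * p) :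
    ∃ j : ℕ, (j : ℝ) < (L / 10 + 3) / 0.0099 ∧ y ^ 90 / 10 * 1.01 ^ j < s ∧
      s ≤ 1.01 * (y ^ 90 / 10 * 1.01 ^ j) := by
  have hy := h.y_ge
  have hy0 : (0 : ℝ) < y := by linarith
  have hex : ∃ n : ℕ, s ≤ 1.01 * (y ^ 90 / 10 * 1.01 ^ n) := by
    obtain ⟨n, hn⟩ := pow_unbounded_of_one_lt (s / (y ^ 90 / 10)) (show (1 : ℝ) < 1.01 by norm_num)
    refine ⟨n, ?_⟩
    rw [div_lt_iff₀ (by positivity)] at hn
    have h1 : 0 ≤ y ^ 90 / 10 * 1.01 ^ n := by positivity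
    linarith
  classical
  have h1 := Nat.find_spec hex
  have h2 : y ^ 90 / 10 * 1.01 ^ (Nat.find hex) < s := by
    rcases Nat.eq_zero_or_pos (Nat.find hex) with h0 | h0
    · rw [h0]; simpa using hs
    · have h3 := Nat.find_min hex (Nat.sub_lt h0 Nat.one_pos)
      rw [not_le] at h3
      refine lt_of_le_of_lt (le_of_eq ?_) h3
      obtain ⟨m, hm⟩ := Nat.exists_eq_succ_of_ne_zero h0.ne'
      rw [hm, Nat.succ_eq_add_one, Nat.add_sub_cancel, pow_succ]
      ring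
  refine ⟨Nat.find hex, ?_, h2, h1⟩
  set n := Nat.find hex
  have h3 : y ^ 90 / 10 * 1.01 ^ n < 2 * y ^ 100 := by
    rw [h.hy]; linarith
  have h4 : (1.01 : ℝ) ^ n < 20 * y ^ 10 := by
    have h5 : y ^ 90 / 10 * 1.01 ^ n < y ^ 90 / 10 * (20 * y ^ 10) := by
      calc y ^ 90 / 10 * 1.01 ^ n < 2 * y ^ 100 := h3
        _ = y ^ 90 / 10 * (20 * y ^ 10) := by ring
    exact lt_of_mul_lt_mul_left h5 (by positivity)
  have h5 := Real.log_lt_log (by positivity) h4
  rw [Real.log_pow, Real.log_mul (by norm_num) (by positivity), Real.log_pow] at h5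
  have h6 : log 20 ≤ 3 := by
    rw [Real.log_le_iff_le_exp (by norm_num)]
    have h7 := Real.exp_one_gt_d9
    have h8 : exp 3 = exp 1 ^ 3 := by rw [← Real.exp_nat_mul]; norm_num
    rw [h8]
    have h9 : (2.7182818283 : ℝ) ^ 3 ≤ exp 1 ^ 3 := pow_le_pow_left₀ (by norm_num) h7.le 3
    have h10 : (20 : ℝ) ≤ (2.7182818283 : ℝ) ^ 3 := by norm_num
    linarith
  have h7 := h.L_eq
  have h8 := log_101
  rw [lt_div_iff₀ (by norm_num)]
  have h9 : (n : ℝ) * 0.0099 ≤ n * log 1.01 := by gcongr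
  push_cast at h5
  linarith

/-- the pairs of a box -/
noncomputable def boxSet (p a z : ℕ) (S : ℝ) : Finset (Σ _ : ℕ, ℕ) :=
  ((odds (2 * p) ((2 * p + 1) ^ 2 / S)).filter
      (fun m : ℕ => ∀ l ∈ (Icc (3 : ℕ) z).filter Nat.Prime, ¬ l ∣ m)).sigma
   (fun m => (odds S (1.01 * S)).filter fun s : ℕ => ((m : ZMod p) * (s : ZMod p) = (a : ZMod p)))

theorem card_boxSet (p a z : ℕ) (S : ℝ) : ((boxSet p a z S).card : ℝ) =
    ∑ m ∈ (odds (2 * p) ((2 * p + 1) ^ 2 / S)).filter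
      (fun m : ℕ => ∀ l ∈ (Icc (3 : ℕ) z).filter Nat.Prime, ¬ l ∣ m),
      wt p a S (1.01 * S) m := by
  unfold boxSet wt
  rw [card_sigma, Nat.cast_sum]

open scoped Classical in
theorem card_mid [Fact p.Prime] (h : Large p y L) (a : ℕ) (ha : Odd a) (ha2 : a < 2 * p)
    (hpa : ¬ p ∣ a) :
    (((Icc 1 (2 * p + 1)).filter fun k : ℕ => (p : ℝ) / 20 < k ∧ ∃ l : ℕ, l.Prime ∧
      l ∣ 2 * p * k + a ∧ 2 * p < l ∧ (l : ℝ) ≤ y ^ 110).card : ℝ) ≤ 1.703 * p := by
  classical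
  have hy := h.y_ge
  have hy1 : (1 : ℝ) ≤ y := by linarith
  have hy0 : (0 : ℝ) < y := by linarith
  have hL := h.h1
  have hL0 : 0 < L := by linarith
  have hp0 : (0 : ℝ) < p := by rw [← h.hy]; positivity
  obtain ⟨z, hz⟩ : ∃ z : ℕ, z = ⌊y ^ 12⌋₊ := ⟨_, rfl⟩
  have hzp : z < 2 * p := by
    have h1 : (z : ℝ) ≤ y ^ 12 := by rw [hz]; exact Nat.floor_le (by positivity)
    have h2 : y ^ 12 ≤ y ^ 100 := pow_le_pow_right₀ hy1 (by norm_num)
    have h3 : (z : ℝ) < 2 * p := by rw [h.hy] at h2; linarith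
    exact_mod_cast h3
  set J : ℕ := ⌈(L / 10 + 3) / 0.0099⌉₊ with hJ
  have hJle : (J : ℝ) ≤ 10.106 * L := by
    have h1 : (J : ℝ) < (L / 10 + 3) / 0.0099 + 1 := Nat.ceil_lt_add_one (by positivity)
    have h2 : (L / 10 + 3) / 0.0099 + 1 ≤ 10.106 * L := by
      rw [← le_sub_iff_add_le, div_le_iff₀ (by norm_num)]
      linarith
    linarith
  set T : Finset (Σ _ : ℕ, ℕ) := ((range J).filter (fun j => y ^ 90 / 10 * 1.01 ^ j ≤ 2 * p)).biUnion
    (fun j => boxSet p a z (y ^ 90 / 10 * 1.01 ^ j)) with hT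
  have hTcard : (T.card : ℝ) ≤ 1.703 * p := by
    have h1 : (T.card : ℝ) ≤ ∑ j ∈ (range J).filter (fun j => y ^ 90 / 10 * 1.01 ^ j ≤ 2 * p),
        ((boxSet p a z (y ^ 90 / 10 * 1.01 ^ j)).card : ℝ) := by
      rw [← Nat.cast_sum]
      exact Nat.cast_le.mpr card_biUnion_le
    have h2 : ∑ j ∈ (range J).filter (fun j => y ^ 90 / 10 * 1.01 ^ j ≤ 2 * p),
        ((boxSet p a z (y ^ 90 / 10 * 1.01 ^ j)).card : ℝ) ≤
        ∑ j ∈ (range J).filter (fun j => y ^ 90 / 10 * 1.01 ^ j ≤ 2 * p), 0.1685 * p / L := by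
      apply sum_le_sum
      intro j hj
      rw [mem_filter] at hj
      rw [card_boxSet]
      apply box_bound h a hpa _ hj.2 hz
      have h3 : (1 : ℝ) ≤ 1.01 ^ j := one_le_pow₀ (by norm_num)
      have h4 : 0 ≤ y ^ 90 / 10 := by positivity
      nlinarith
    rw [sum_const, nsmul_eq_mul] at h2
    have h3 : (((range J).filter (fun j => y ^ 90 / 10 * 1.01 ^ j ≤ 2 * p)).card : ℝ) ≤ J := by
      have := card_filter_le (range J) (fun j => y ^ 90 / 10 * 1.01 ^ j ≤ 2 * p)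
      rw [card_range] at this
      exact_mod_cast this
    have h4 : 0 ≤ 0.1685 * (p : ℝ) / L := by positivity
    calc (T.card : ℝ) ≤ J * (0.1685 * p / L) := by
          refine h1.trans (h2.trans ?_)
          gcongr
      _ ≤ (10.106 * L) * (0.1685 * p / L) := by gcongr
      _ = 10.106 * 0.1685 * p := by field_simp
      _ ≤ 1.703 * p := by
          apply mul_le_mul_of_nonneg_right _ hp0.le
          norm_num
  refine le_trans ?_ hTcard
  have hsub : ((Icc 1 (2 * p + 1)).filter fun k : ℕ => (p : ℝ) / 20 < k ∧ ∃ l : ℕ, l.Prime ∧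
      l ∣ 2 * p * k + a ∧ 2 * p < l ∧ (l : ℝ) ≤ y ^ 110) ⊆
      T.image (fun t => (t.1 * t.2 - a) / (2 * p)) := by
    intro k hk
    rw [mem_filter, mem_Icc] at hk
    obtain ⟨⟨hk1, hk2⟩, hk3, l, hl, ⟨s, hs⟩, hl2, hl3⟩ := hk
    rw [mem_image]
    have hp' : 0 < p := by exact_mod_cast hp0
    have hodd : Odd (l * s) := by
      rw [← hs]
      exact (((even_two.mul_right p).mul_right k)).add_odd ha
    rw [Nat.odd_mul] at hodd
    have hN : 2 * p * k + a < (2 * p + 1) ^ 2 := by nlinarith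
    have hN' : ((2 : ℝ) * p * k + a) < (2 * p + 1) ^ 2 := by exact_mod_cast hN
    have hs' : (2 : ℝ) * p * k + a = l * s := by exact_mod_cast hs
    have hs2p : s ≤ 2 * p := by
      by_contra hcon
      push Not at hcon
      have : (2 * p + 1) * (2 * p + 1) ≤ l * s := Nat.mul_le_mul hl2 hcon
      nlinarith
    have hl0 : (0 : ℝ) < l := by exact_mod_cast hl.pos
    have hs0 : y ^ 90 / 10 < s := by
      have h1 : y ^ 90 / 10 * y ^ 110 < (s : ℝ) * y ^ 110 := by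
        have h2 : (a : ℝ) ≥ 0 := by positivity
        calc y ^ 90 / 10 * y ^ 110 = (y ^ 100) * (y ^ 100) / 10 := by ring
          _ = 2 * (p : ℝ) * ((p : ℝ) / 20) := by rw [h.hy]; ring
          _ < 2 * (p : ℝ) * k := by gcongr
          _ ≤ (l : ℝ) * s := by linarith
          _ ≤ y ^ 110 * s := by gcongr
          _ = (s : ℝ) * y ^ 110 := by ring
      exact lt_of_mul_lt_mul_right h1 (by positivity)
    obtain ⟨j, hj1, hj2, hj3⟩ := exists_box h hs0 (by exact_mod_cast hs2p)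
    refine ⟨⟨l, s⟩, ?_, ?_⟩
    · rw [hT, mem_biUnion]
      have hSj : 0 < y ^ 90 / 10 * 1.01 ^ j := by positivity
      refine ⟨j, ?_, ?_⟩
      · rw [mem_filter, mem_range]
        constructor
        · have : (j : ℝ) < J := lt_of_lt_of_le hj1 (Nat.le_ceil _)
          exact_mod_cast this
        · have : (s : ℝ) ≤ 2 * p := by exact_mod_cast hs2p
          linarith
      · unfold boxSet
        rw [mem_sigma, mem_filter, mem_filter, mem_odds (by positivity), mem_odds (by positivity)]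
        refine ⟨⟨⟨?_, ?_, hodd.1⟩, ?_⟩, ⟨hj2, hj3, hodd.2⟩, ?_⟩
        · show (2 * p : ℝ) < (l : ℝ)
          exact_mod_cast hl2
        · show (l : ℝ) ≤ _
          rw [le_div_iff₀ hSj]
          calc (l : ℝ) * (y ^ 90 / 10 * 1.01 ^ j) ≤ l * s := by gcongr
            _ ≤ _ := by linarith
        · intro q hq hql
          rw [mem_filter, mem_Icc] at hq
          have := (Nat.prime_dvd_prime_iff_eq hq.2 hl).mp hql
          omega
        · show ((l : ZMod p) * (s : ZMod p) = (a : ZMod p))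
          have : (((2 * p * k + a : ℕ)) : ZMod p) = ((l * s : ℕ) : ZMod p) := by rw [hs]
          push_cast at this
          rw [← this]
          simp
    · show (l * s - a) / (2 * p) = k
      rw [← hs, Nat.add_sub_cancel]
      exact Nat.mul_div_cancel_left k (by omega)
  exact_mod_cast (card_le_card hsub).trans card_image_le

theorem large_of_le (hp : exp 100000 ≤ p) : Large p ((p : ℝ) ^ (1 / 100 : ℝ)) (log p) := by
  have hp0 : (0 : ℝ) < p := lt_of_lt_of_le (exp_pos _) hp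
  have hL : 100000 ≤ log p := by
    rw [Real.le_log_iff_exp_le hp0]
    exact hp
  refine ⟨?_, rfl, hL, ?_⟩
  · rw [← Real.rpow_natCast, ← Real.rpow_mul (by positivity)]
    norm_num
  · rw [Real.rpow_def_of_pos hp0]
    obtain ⟨x, hx⟩ : ∃ x : ℝ, x = log p / 100 := ⟨_, rfl⟩
    have hx1 : log (p : ℝ) = 100 * x := by rw [hx]; ring
    have hx2 : 1000 ≤ x := by rw [hx]; linarith
    have h1 : log (p : ℝ) * (1 / 100) = x := by rw [hx]; ring
    rw [h1, hx1]
    have h2 := Real.pow_div_factorial_le_exp (x := x) (by linarith) 10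
    refine le_trans ?_ h2
    rw [le_div_iff₀ (by positivity)]
    have h3 : (1 + 100 * x) ^ 3 ≤ (101 * x) ^ 3 := by
      apply pow_le_pow_left₀ (by linarith)
      linarith
    have h4 : (1000 : ℝ) ^ 7 ≤ x ^ 7 := pow_le_pow_left₀ (by norm_num) hx2 7
    have h5 : ((Nat.factorial 10 : ℕ) : ℝ) = 3628800 := by norm_num [Nat.factorial]
    rw [h5]
    have h6 : 0 ≤ x ^ 3 := by positivity
    calc 1000000 * (1 + 100 * x) ^ 3 * 3628800 ≤ 1000000 * (101 * x) ^ 3 * 3628800 := by gcongr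
      _ = (1000000 * 101 ^ 3 * 3628800) * x ^ 3 := by ring
      _ ≤ (1000 : ℝ) ^ 7 * x ^ 3 := by
          apply mul_le_mul_of_nonneg_right _ h6
          norm_num
      _ ≤ x ^ 7 * x ^ 3 := by gcongr
      _ = x ^ 10 := by ring

/-- bound for the contribution of one `k` -/
theorem inner_bound [Fact p.Prime] (h : Large p y L) (a : ℕ) (ha2 : a < 2 * p)
    (k : ℕ) (hk : k ≤ 2 * p + 1) (A B : Prop) [Decidable A] [Decidable B]
    (hA : (∃ l : ℕ, l.Prime ∧ l ∣ 2 * p * k + a ∧ 2 * p < l ∧ (l : ℝ) ≤ y ^ 110) → A)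
    (hB : (∃ l : ℕ, l.Prime ∧ l ∣ 2 * p * k + a ∧ y ^ 110 < (l : ℝ)) → B) :
    ∑ l ∈ (2 * p * k + a).primeFactors.filter (fun l => 2 * p < l), log l ≤
      (if A then 1.1 * L else 0) + (if B then 2 * log (2 * p + 1) else 0) := by
  have hy := h.y_ge
  have hy1 : (1 : ℝ) ≤ y := by linarith
  have hy0 : (0 : ℝ) < y := by linarith
  have hL := h.h1
  have hL0 : 0 < L := by linarith
  have hp0 : (0 : ℝ) < p := by rw [← h.hy]; positivity
  have hlog : 0 ≤ log ((2 : ℝ) * p + 1) := Real.log_nonneg (by linarith)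
  have hN : 2 * p * k + a < (2 * p + 1) ^ 2 := by nlinarith
  have hA0 : 0 ≤ (if A then 1.1 * L else 0) := by split_ifs <;> positivity
  have hB0 : 0 ≤ (if B then 2 * log ((2 : ℝ) * p + 1) else 0) := by split_ifs <;> positivity
  set F := (2 * p * k + a).primeFactors.filter (fun l => 2 * p < l) with hF
  rcases Nat.eq_zero_or_pos F.card with h0 | h0
  · rw [card_eq_zero] at h0
    rw [h0, sum_empty]
    linarith
  · have h1 : F.card ≤ 1 := by
      rw [card_le_one]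
      intro l hl q hq
      rw [hF, mem_filter, Nat.mem_primeFactors] at hl hq
      by_contra hne
      have hcop : l.Coprime q := (Nat.coprime_primes hl.1.1 hq.1.1).mpr hne
      have hdvd := hcop.mul_dvd_of_dvd_of_dvd hl.1.2.1 hq.1.2.1
      have hle := Nat.le_of_dvd (Nat.pos_of_ne_zero hl.1.2.2) hdvd
      have : (2 * p + 1) * (2 * p + 1) ≤ l * q := Nat.mul_le_mul hl.2 hq.2
      nlinarith
    obtain ⟨l, hl⟩ := card_eq_one.mp (le_antisymm h1 h0)
    rw [hl, sum_singleton]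
    have hlF : l ∈ F := by rw [hl]; exact mem_singleton_self l
    rw [hF, mem_filter, Nat.mem_primeFactors] at hlF
    obtain ⟨⟨hlp, hld, hN0⟩, hl2⟩ := hlF
    have hl0 : (0 : ℝ) < l := by exact_mod_cast hlp.pos
    rcases le_or_gt (l : ℝ) (y ^ 110) with hly | hly
    · rw [if_pos (hA ⟨l, hlp, hld, hl2, hly⟩)]
      have h3 : log (l : ℝ) ≤ log (y ^ 110) := Real.log_le_log hl0 hly
      rw [Real.log_pow] at h3
      push_cast at h3
      have h4 := h.L_eq
      linarith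
    · rw [if_pos (hB ⟨l, hlp, hld, hly⟩)]
      have h3 : (l : ℝ) ≤ (2 * p + 1) ^ 2 := by
        have := (Nat.le_of_dvd (Nat.pos_of_ne_zero hN0) hld).trans hN.le
        exact_mod_cast this
      have h4 : log (l : ℝ) ≤ log ((2 * (p : ℝ) + 1) ^ 2) := Real.log_le_log hl0 h3
      rw [Real.log_pow] at h4
      push_cast at h4
      linarith

theorem pi_bound [Fact p.Prime] (h : Large p y L) :
    (Nat.primeCounting (2 * p) : ℝ) * (2 * log (2 * p + 1)) ≤ 12 * p := by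
  have hy := h.y_ge
  have hy1 : (1 : ℝ) ≤ y := by linarith
  have hy0 : (0 : ℝ) < y := by linarith
  have hL := h.h1
  have hL0 : 0 < L := by linarith
  have hp0 : (0 : ℝ) < p := by rw [← h.hy]; positivity
  have hpy : y ^ 100 = p := h.hy
  have hp1 : 1000000 ≤ (p : ℝ) := by
    rw [← hpy]
    calc (1000000 : ℝ) ≤ y := hy
      _ = y ^ 1 := (pow_one y).symm
      _ ≤ y ^ 100 := pow_le_pow_right₀ hy1 (by norm_num)
  have h1 := Chebyshev.pi_le_log4_mul_div (x := 2 * p) (by linarith)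
  have h2 : ⌊(2 : ℝ) * p⌋₊ = 2 * p := by
    have : ((2 : ℝ) * p) = ((2 * p : ℕ) : ℝ) := by push_cast; ring
    rw [this, Nat.floor_natCast]
  rw [h2] at h1
  have h3 : log (2 * (p : ℝ)) = log 2 + L := by
    rw [Real.log_mul (by norm_num) hp0.ne', ← h.hL]
  have h4 : log (√(2 * (p : ℝ))) = (log 2 + L) / 2 := by
    rw [Real.log_sqrt (by positivity), h3]
  have h5 : log (2 * (p : ℝ) + 1) ≤ 1.001 * L := by
    have : (2 : ℝ) * p + 1 ≤ 3 * p := by linarith
    have h6 : log (2 * (p : ℝ) + 1) ≤ log (3 * p) := Real.log_le_log (by positivity) this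
    rw [Real.log_mul (by norm_num) hp0.ne', ← h.hL] at h6
    have h7 : log 3 ≤ 3 - 1 := Real.log_le_sub_one_of_pos (by norm_num)
    linarith
  have h5' : 0 ≤ log (2 * (p : ℝ) + 1) := Real.log_nonneg (by linarith)
  have hl2 := Real.log_two_gt_d9
  have hl2' := Real.log_two_lt_d9
  have h6 : log 4 = 2 * log 2 := by
    rw [show (4 : ℝ) = 2 ^ 2 by norm_num, Real.log_pow]; norm_num
  have h7 : log 4 * (2 * (p : ℝ)) / log (√(2 * (p : ℝ))) ≤ 5.55 * p / L := by
    rw [h4, div_le_div_iff₀ (by linarith) hL0, h6]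
    have : 0 ≤ (p : ℝ) * L := by positivity
    have : 0 ≤ (p : ℝ) * log 2 := by positivity
    nlinarith
  have h8 : √(2 * (p : ℝ)) ≤ 0.001 * p / L := by
    rw [le_div_iff₀ hL0]
    have h9 : √(2 * (p : ℝ)) ≤ 2 * y ^ 50 := by
      rw [Real.sqrt_le_left (by positivity), ← hpy]
      have : 0 ≤ y ^ 100 := by positivity
      nlinarith
    have h10 : 2000 * L ≤ y := by
      have := h.h2
      have : L ≤ (1 + L) ^ 3 := by nlinarith [sq_nonneg L, mul_pos hL0 hL0]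
      linarith
    calc √(2 * (p : ℝ)) * L ≤ (2 * y ^ 50) * L := by gcongr
      _ = y ^ 50 * 0.001 * (2000 * L) := by ring
      _ ≤ y ^ 50 * 0.001 * y := by gcongr
      _ = 0.001 * (y ^ 51) := by ring
      _ ≤ 0.001 * (y ^ 100) := by
          gcongr
          norm_num
      _ = 0.001 * p := by rw [hpy]
  have h9 : (Nat.primeCounting (2 * p) : ℝ) ≤ 5.551 * p / L := by
    have : 5.55 * (p : ℝ) / L + 0.001 * p / L = 5.551 * p / L := by ring
    linarith
  calc (Nat.primeCounting (2 * p) : ℝ) * (2 * log (2 * p + 1))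
      ≤ (5.551 * p / L) * (2 * (1.001 * L)) := by gcongr
    _ = 5.551 * 2 * 1.001 * p := by field_simp
    _ ≤ 12 * p := by
        apply mul_le_mul_of_nonneg_right _ hp0.le
        norm_num

open scoped Classical in
theorem card_large [Fact p.Prime] (h : Large p y L) (a : ℕ) (ha : Odd a) (ha2 : a < 2 * p)
    (hpa : ¬ p ∣ a) :
    0.0355 * (p : ℝ) ≤ (((Icc 1 (2 * p + 1)).filter fun k : ℕ => ∃ l : ℕ, l.Prime ∧
      l ∣ 2 * p * k + a ∧ y ^ 110 < (l : ℝ)).card : ℝ) := by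
  have hy := h.y_ge
  have hy1 : (1 : ℝ) ≤ y := by linarith
  have hy0 : (0 : ℝ) < y := by linarith
  have hL := h.h1
  have hL0 : 0 < L := by linarith
  have hp0 : (0 : ℝ) < p := by rw [← h.hy]; positivity
  have hpy : y ^ 100 = p := h.hy
  have hp1 : 1000000 ≤ (p : ℝ) := by
    rw [← hpy]
    calc (1000000 : ℝ) ≤ y := hy
      _ = y ^ 1 := (pow_one y).symm
      _ ≤ y ^ 100 := pow_le_pow_right₀ hy1 (by norm_num)
  have hp2 : 2 < p := by
    have : (2 : ℝ) < p := by linarith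
    exact_mod_cast this
  have hpp : p.Prime := Fact.out
  set M := (Icc 1 (2 * p + 1)).filter fun k : ℕ => (p : ℝ) / 20 < k ∧ ∃ l : ℕ, l.Prime ∧
      l ∣ 2 * p * k + a ∧ 2 * p < l ∧ (l : ℝ) ≤ y ^ 110 with hM
  set B := (Icc 1 (2 * p + 1)).filter fun k : ℕ => ∃ l : ℕ, l.Prime ∧
      l ∣ 2 * p * k + a ∧ y ^ 110 < (l : ℝ) with hB
  set C := (Icc 1 (2 * p + 1)).filter fun k : ℕ => (k : ℝ) ≤ p / 20 with hC
  have hMcard : (M.card : ℝ) ≤ 1.703 * p := card_mid h a ha ha2 hpa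
  have hCcard : (C.card : ℝ) ≤ p / 20 := by
    have h1 : C ⊆ Icc 1 ⌊(p : ℝ) / 20⌋₊ := by
      intro k hk
      rw [hC, mem_filter, mem_Icc] at hk
      rw [mem_Icc]
      exact ⟨hk.1.1, Nat.le_floor hk.2⟩
    have h2 := card_le_card h1
    rw [Nat.card_Icc, Nat.add_sub_cancel] at h2
    calc (C.card : ℝ) ≤ ⌊(p : ℝ) / 20⌋₊ := by exact_mod_cast h2
      _ ≤ p / 20 := Nat.floor_le (by positivity)
  have key := log_sum p a hpp hp2 ha ha2 hpa
  have hpi := pi_bound h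
  have hsum : ∑ k ∈ Icc 1 (2 * p + 1),
        ∑ l ∈ (2 * p * k + a).primeFactors.filter (fun l => 2 * p < l), log l ≤
      ∑ k ∈ Icc 1 (2 * p + 1), ((if k ∈ M ∪ C then 1.1 * L else 0) +
        (if k ∈ B then 2 * log (2 * p + 1) else 0)) := by
    apply sum_le_sum
    intro k hk
    apply inner_bound h a ha2 k (mem_Icc.mp hk).2
    · intro hex
      rw [mem_union]
      rcases le_or_gt (k : ℝ) ((p : ℝ) / 20) with h1 | h1
      · right
        rw [hC, mem_filter]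
        exact ⟨hk, h1⟩
      · left
        rw [hM, mem_filter]
        exact ⟨hk, h1, hex⟩
    · intro hex
      rw [hB, mem_filter]
      exact ⟨hk, hex⟩
  rw [sum_add_distrib, ← sum_filter, ← sum_filter, sum_const, sum_const, nsmul_eq_mul,
    nsmul_eq_mul] at hsum
  have h1 : (((Icc 1 (2 * p + 1)).filter (fun k => k ∈ M ∪ C)).card : ℝ) ≤ 1.753 * p := by
    have h2 : (Icc 1 (2 * p + 1)).filter (fun k => k ∈ M ∪ C) ⊆ M ∪ C := by
      intro k hk
      exact (mem_filter.mp hk).2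
    have h3 : (((Icc 1 (2 * p + 1)).filter (fun k => k ∈ M ∪ C)).card : ℝ) ≤ M.card + C.card := by
      exact_mod_cast (card_le_card h2).trans (card_union_le M C)
    linarith
  have h2 : (((Icc 1 (2 * p + 1)).filter (fun k => k ∈ B)).card : ℝ) ≤ B.card := by
    have h2 : (Icc 1 (2 * p + 1)).filter (fun k => k ∈ B) ⊆ B := by
      intro k hk
      exact (mem_filter.mp hk).2
    exact_mod_cast card_le_card h2
  have h3 : log (2 * (p : ℝ)) = log 2 + L := by
    rw [Real.log_mul (by norm_num) hp0.ne', ← h.hL]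
  have hl2 := Real.log_two_gt_d9
  have h5 : log (2 * (p : ℝ) + 1) ≤ 1.0001 * L := by
    have : (2 : ℝ) * p + 1 ≤ 3 * p := by linarith
    have h6 : log (2 * (p : ℝ) + 1) ≤ log (3 * p) := Real.log_le_log (by positivity) this
    rw [Real.log_mul (by norm_num) hp0.ne', ← h.hL] at h6
    have h7 : log 3 ≤ 3 - 1 := Real.log_le_sub_one_of_pos (by norm_num)
    linarith
  have h5' : 0 ≤ log (2 * (p : ℝ) + 1) := Real.log_nonneg (by linarith)
  have h6 : 2 * (p : ℝ) * L ≤ (2 * p + 1) * log (2 * p) := by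
    rw [h3]
    nlinarith
  have h7 : 2 * (p : ℝ) * L - 12 * p ≤ 1.753 * p * (1.1 * L) + B.card * (2 * (1.0001 * L)) := by
    calc 2 * (p : ℝ) * L - 12 * p ≤ (2 * p + 1) * log (2 * p) -
          (Nat.primeCounting (2 * p)) * (2 * log (2 * p + 1)) := by linarith
      _ ≤ _ := key
      _ ≤ _ := hsum
      _ ≤ _ := by gcongr
  have h8 : 12 * (p : ℝ) ≤ 0.00012 * (p * L) := by nlinarith
  have h9 : 0.0355 * (p : ℝ) * L ≤ B.card * L := by
    have : 0 ≤ (p : ℝ) * L := by positivity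
    nlinarith
  exact le_of_mul_le_mul_right h9 hL0

theorem main (p : ℕ) (hp : p.Prime) (hp1 : exp 100000 ≤ (p : ℝ)) (a : ℕ) (ha : Odd a)
    (ha2 : a < 2 * p) (hpa : ¬ p ∣ a) :
    (p : ℝ) / 30 ≤ ({k : ℕ | 1 ≤ k ∧ k < 2 * (p + 1) ∧ ¬ p ∣ k ∧
      ∃ l : ℕ, l.Prime ∧ l ∣ 2 * k * p + a ∧ (p : ℝ) ^ (11 / 10 : ℝ) < l}.ncard : ℝ) := by
  classical
  have : Fact p.Prime := ⟨hp⟩
  have h := large_of_le hp1
  have hc := card_large h a ha ha2 hpa
  have hp0 : (0 : ℝ) < p := by exact_mod_cast hp.pos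
  have hy110 : ((p : ℝ) ^ (1 / 100 : ℝ)) ^ 110 = (p : ℝ) ^ (11 / 10 : ℝ) := by
    rw [← Real.rpow_natCast, ← Real.rpow_mul (by positivity)]
    norm_num
  rw [hy110] at hc
  set B := (Icc 1 (2 * p + 1)).filter fun k : ℕ => ∃ l : ℕ, l.Prime ∧
      l ∣ 2 * p * k + a ∧ (p : ℝ) ^ (11 / 10 : ℝ) < (l : ℝ) with hB
  have hfin : {k : ℕ | 1 ≤ k ∧ k < 2 * (p + 1) ∧ ¬ p ∣ k ∧
      ∃ l : ℕ, l.Prime ∧ l ∣ 2 * k * p + a ∧ (p : ℝ) ^ (11 / 10 : ℝ) < l}.Finite :=
    (Set.finite_lt_nat (2 * (p + 1))).subset fun k hk => hk.2.1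
  have hsub : ((B \ {p, 2 * p} : Finset ℕ) : Set ℕ) ⊆ {k : ℕ | 1 ≤ k ∧ k < 2 * (p + 1) ∧ ¬ p ∣ k ∧
      ∃ l : ℕ, l.Prime ∧ l ∣ 2 * k * p + a ∧ (p : ℝ) ^ (11 / 10 : ℝ) < l} := by
    intro k hk
    rw [mem_coe, mem_sdiff, hB, mem_filter, mem_Icc] at hk
    obtain ⟨⟨⟨h1, h2⟩, l, hl, hl2, hl3⟩, h3⟩ := hk
    refine ⟨h1, by omega, ?_, l, hl, ?_, hl3⟩
    · rintro ⟨b, rfl⟩
      apply h3
      have hb1 : b ≠ 0 := by rintro rfl; simp at h1
      have hb2 : b ≤ 2 := by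
        by_contra hcon
        push Not at hcon
        have : p * 3 ≤ p * b := Nat.mul_le_mul_left p hcon
        have := hp.two_le
        have h100000 : (3 : ℝ) ≤ p := by
          have := Real.add_one_le_exp (100000 : ℝ)
          linarith
        have : 3 ≤ p := by exact_mod_cast h100000
        omega
      have : b = 1 ∨ b = 2 := by omega
      rcases this with rfl | rfl
      · simp
      · simp [mul_comm]
    · have : 2 * k * p + a = 2 * p * k + a := by ring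
      rw [this]; exact hl2
  have h1 := Set.ncard_le_ncard hsub hfin
  rw [Set.ncard_coe_finset] at h1
  have h2 : B.card ≤ (B \ {p, 2 * p}).card + 2 := by
    have h3 := le_card_sdiff ({p, 2 * p} : Finset ℕ) B
    have h4 : ({p, 2 * p} : Finset ℕ).card ≤ 2 := card_le_two
    omega
  have h3 : (B.card : ℝ) ≤ ({k : ℕ | 1 ≤ k ∧ k < 2 * (p + 1) ∧ ¬ p ∣ k ∧
      ∃ l : ℕ, l.Prime ∧ l ∣ 2 * k * p + a ∧ (p : ℝ) ^ (11 / 10 : ℝ) < l}.ncard : ℝ) + 2 := by
    exact_mod_cast h2.trans (Nat.add_le_add_right h1 2)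
  have h4 : (100000 : ℝ) ≤ p := by
    have := Real.add_one_le_exp (100000 : ℝ)
    linarith
  linarith

end Pool.Agent.MP_2f88e5_nt
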